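import Pool.Agent.H40.GC.PLC
import Pool.Agent.H13.SM.Smo

set_option autoImplicit false

namespace Pool.Agent.H40.GF

open Polynomial IsDedekindDomain
open Pool.Agent.H94.GG (Fam lead Smooth Special Harmless)
open Pool.Agent.H40.GC (FamS kv rv)

variable {F : Type} [Field F]

theorem sqf_spec {f : F[X][X]} {v : HeightOneSpectrum F[X]} (h : Special f v) : Squarefree (f.map (rv v)) := by
  obtain ⟨c, G, hG, -, hc, hf⟩ := h
  have h1 : Squarefree ((X - C c) * G : (kv v)[X]) := by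
    rw [squarefree_mul_iff]
    refine ⟨IsCoprime.isRelPrime ?_, (irreducible_X_sub_C c).squarefree, Irreducible.squarefree hG⟩
    refine (irreducible_X_sub_C c).coprime_iff_not_dvd.2 fun hd => hc ?_
    exact dvd_iff_isRoot.1 hd
  rw [hf]
  exact h1

theorem sqf_harm {f : F[X][X]} {v : HeightOneSpectrum F[X]} (h : Harmless f v) : Squarefree (f.map (rv v)) :=
  Irreducible.squarefree h

theorem nosing [Finite F] {f : F[X][X]} {v : HeightOneSpectrum F[X]} (h : Squarefree (f.map (rv v)))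
    {t : AlgebraicClosure F} (hv : ∀ Q ∈ v.asIdeal, aeval t Q = 0) (x : AlgebraicClosure F) :
    ¬ H13.SM.SingAt f t x := by
  rintro ⟨h1, h2, -⟩
  obtain ⟨ψ, hψ⟩ : ∃ ψ : kv v →+* AlgebraicClosure F,
      ψ.comp (rv v) = ((aeval t : F[X] →ₐ[F] AlgebraicClosure F) : F[X] →+* AlgebraicClosure F) :=
    ⟨Ideal.Quotient.lift v.asIdeal ((aeval t : F[X] →ₐ[F] AlgebraicClosure F) : F[X] →+* AlgebraicClosure F) hv,
      Ideal.Quotient.lift_comp_mk _ _ _⟩
  have key : ∀ g : F[X][X], H13.SM.val g t x = (g.map (rv v)).eval₂ ψ x := by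
    intro g
    rw [eval₂_map, hψ]
    rfl
  obtain ⟨a, b, hab⟩ : (f.map (rv v)).Separable := PerfectField.separable_iff_squarefree.2 h
  rw [key] at h1
  rw [key, ← derivative_map] at h2
  have h3 := congrArg (fun p => eval₂ ψ x p) hab
  simp only [eval₂_add, eval₂_mul, h1, h2, mul_zero, add_zero, eval₂_one] at h3
  exact zero_ne_one h3

open Classical in
theorem nsm [Finite F] (h2 : (2 : F) ≠ 0) {m : ℕ} (hm : 3 ≤ m) (M : ℕ)
    (P Z : Finset (HeightOneSpectrum F[X]))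
    (hM : ∀ Q : F[X], Irreducible Q → Q.natDegree ≤ M → ∃ v ∈ P ∪ Z, Q ∈ v.asIdeal) (ε : ℝ) (hε : 0 < ε) :
    ∃ h0 : ℕ, ∀ h : ℕ, h0 ≤ h →
      (Nat.card {f : F[X][X] // FamS m h P Z f ∧ ¬ Smooth f} : ℝ) ≤
        (2 * m / (Nat.card F : ℝ) ^ (M + 1) + ε) * Nat.card {f : F[X][X] // FamS m h P Z f} := by
  have hgen : ∀ v : HeightOneSpectrum F[X], ∃ Q : F[X], Irreducible Q ∧ v.asIdeal = Ideal.span {Q} := by
    intro v
    obtain ⟨Q, hQ⟩ : ∃ Q : F[X], v.asIdeal = Ideal.span {Q} :=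
      (IsPrincipalIdealRing.principal v.asIdeal).principal
    have hQ0 : Q ≠ 0 := by
      rintro rfl
      apply v.ne_bot
      rw [hQ, Ideal.span_singleton_eq_bot]
    have h1 : (Ideal.span {Q}).IsPrime := hQ ▸ v.isPrime
    exact ⟨Q, ((Ideal.span_singleton_prime hQ0).1 h1).irreducible, hQ⟩
  choose q hq1 hq2 using hgen
  obtain ⟨N, hN⟩ : ∃ N : F[X], N = ∏ v ∈ P ∪ Z, q v := ⟨_, rfl⟩
  have hN0 : N ≠ 0 := by
    rw [hN]
    exact Finset.prod_ne_zero_iff.2 fun v _ => (hq1 v).ne_zero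
  have hqN : ∀ v ∈ P ∪ Z, q v ∣ N := fun v hv => by
    rw [hN]
    exact Finset.dvd_prod_of_mem q hv
  have hv : ∀ w : F[X], Irreducible w → w.natDegree ≤ M → w ∣ N := by
    intro w hw hwM
    obtain ⟨v, hvm, hwv⟩ := hM w hw hwM
    rw [hq2 v, Ideal.mem_span_singleton] at hwv
    exact ((hq1 v).associated_of_dvd hw hwv).symm.dvd.trans (hqN v hvm)
  obtain ⟨h0, hh0⟩ := H13.SM.smoc h2 m hm M N hN0 hv ε hε
  refine ⟨h0, fun h hh => ?_⟩
  have hmap : ∀ f f' : F[X][X], (∀ i, N ∣ f.coeff i - f'.coeff i) → ∀ v ∈ P ∪ Z,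
      f.map (rv v) = f'.map (rv v) := by
    intro f f' hff v hvm
    ext i
    rw [coeff_map, coeff_map]
    refine Ideal.Quotient.eq.2 ?_
    rw [hq2 v, Ideal.mem_span_singleton]
    exact (hqN v hvm).trans (hff i)
  have h3 := hh0 h hh (fun f => Irreducible (lead m h f) ∧ (∀ v ∈ P, Special f v) ∧ ∀ v ∈ Z, Harmless f v) (by
    rintro f f' - - hl hff ⟨a1, a2, a3⟩
    refine ⟨hl ▸ a1, fun v hvP => ?_, fun v hvZ => ?_⟩
    · obtain ⟨c, G, g1, g2, g3, g4⟩ := a2 v hvP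
      exact ⟨c, G, g1, g2, g3, (hmap f f' hff v (Finset.mem_union_left _ hvP)).symm.trans g4⟩
    · have h5 := a3 v hvZ
      unfold Harmless at h5 ⊢
      rw [← show f.map (Ideal.Quotient.mk v.asIdeal) = f'.map (Ideal.Quotient.mk v.asIdeal) from
        hmap f f' hff v (Finset.mem_union_right _ hvZ)]
      exact h5)
  have hfin : Finite {f : F[X][X] // Fam m h f} := H13.SM.fam_fin m h
  have hfin' : Finite {f : F[X][X] // Fam m h f ∧ (Irreducible (lead m h f) ∧ (∀ v ∈ P, Special f v) ∧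
      ∀ v ∈ Z, Harmless f v) ∧ H13.SM.SingN N f} := by
    refine Finite.of_injective (fun f => (⟨f.1, f.2.1⟩ : {f : F[X][X] // Fam m h f})) ?_
    intro f g hfg
    have h5 := Subtype.ext_iff.1 hfg
    exact Subtype.ext h5
  have e2 : Nat.card {f : F[X][X] // FamS m h P Z f ∧ ¬ Smooth f} ≤
      Nat.card {f : F[X][X] // Fam m h f ∧ (Irreducible (lead m h f) ∧ (∀ v ∈ P, Special f v) ∧
      ∀ v ∈ Z, Harmless f v) ∧ H13.SM.SingN N f} := by
    refine Nat.card_le_card_of_injective (fun f => ⟨f.1, f.2.1.1, f.2.1.2, ?_⟩) ?_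
    · obtain ⟨t, x, htx⟩ := H13.SM.sing f.1 f.2.2
      refine ⟨t, x, ?_, htx⟩
      intro h0
      rw [hN, map_prod, Finset.prod_eq_zero_iff] at h0
      obtain ⟨v, hvm, hv0⟩ := h0
      have h6 : ∀ Q ∈ v.asIdeal, aeval t Q = 0 := by
        intro Q hQ
        rw [hq2 v, Ideal.mem_span_singleton] at hQ
        obtain ⟨R, rfl⟩ := hQ
        rw [map_mul, hv0, zero_mul]
      have h7 : Squarefree (f.1.map (rv v)) := by
        rcases Finset.mem_union.1 hvm with h8 | h8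
        · exact sqf_spec (f.2.1.2.2.1 v h8)
        · exact sqf_harm (f.2.1.2.2.2 v h8)
      exact nosing h7 h6 x htx
    · intro f g hfg
      have h5 := Subtype.ext_iff.1 hfg
      exact Subtype.ext h5
  refine le_trans (by exact_mod_cast e2) h3

end Pool.Agent.H40.GF
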