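import Pool.Agent.H94.GG.Defs
import Pool.Agent.H40.GC.NDf
import Pool.Agent.H40.GC.PLC
import Pool.Agent.H94.LT.Fin

set_option autoImplicit false

/-!
# [H40 GF TWF] THEOREM G1 (MP_1bad5e_ag): heights, places of large degree, choice of the twisting polynomial

PROOF.
`tw_fam`: `scaleRoots f D` has the coefficients `f_i D ^ (m - i)` (`coeff_scaleRoots`), degree `≤ (m - i) h + (m - i) e`; monic
and of degree `m` (`monic_scaleRoots_iff`, `natDegree_scaleRoots`).
`tw_inj`: compare coefficients (`D ≠ 0`, both of degree `m`).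
`mh_add`: `Mh m (h + e) = Mh m h + ∑ (m - i) e`: clear.
`pld`: `Pool.Agent.H74.FS.prn : Nat.card F ^ m ≤ 2 * m * (Pr F m).card` (module `H74/FS/PRA`); `q ^ d / (2 d) → ∞`, so for a
large `d ≥ N` the set `Pr F d` has at least `n` elements (`mem_Pr` in `H94/PC/Defs`); choose an injection
`Fin n → Pr F d`.
`card_kv`: the polynomials of degree `< natDegree P` have different images in `F[X] / (P)`; there are `q ^ (natDegree P)`.
`place_inj`: the ideals `(Q)`, `(Q')` are equal, so `Q`, `Q'` are associated, and both are monic.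
`div_ex`: `D = (∏ i ∈ I, p i) * ∏ j with j + I.card < k, z j`, of degree `(#I + (k - #I)) d` (`#I ≤ k`); it is a product of
different monic irreducible polynomials, so squarefree; `p i ^ 2 ∣ D` is impossible, `p i ∣ D` means that `p i` is one of
the factors; an irreducible divisor `Q` divides one of the factors and is associated to it.
-/

namespace Pool.Agent.H40.GF

open Polynomial IsDedekindDomain
open Pool.Agent.H94.GG (Fam)
open Pool.Agent.H40.GC (Mh kv)

variable {F : Type} [Field F]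

theorem tw_fam {m h e : ℕ} {f : F[X][X]} (hf : Fam m h f) {D : F[X]} (hD : D.natDegree = e) :
    Fam m (h + e) (scaleRoots f D) := by
  refine ⟨(monic_scaleRoots_iff D).2 hf.monic, ?_, ?_⟩
  · rw [natDegree_scaleRoots, hf.deg]
  · intro i hi
    rw [coeff_scaleRoots, hf.deg]
    refine natDegree_mul_le.trans ?_
    have h1 := hf.coeff i hi
    have h2 : (D ^ (m - i)).natDegree ≤ (m - i) * e := by
      rw [← hD]; exact natDegree_pow_le
    have h3 : (m - i) * (h + e) = (m - i) * h + (m - i) * e := Nat.mul_add _ _ _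
    omega

theorem tw_inj {m : ℕ} {f f' : F[X][X]} (hf : f.natDegree = m) (hf' : f'.natDegree = m) {D : F[X]} (hD : D ≠ 0)
    (h : scaleRoots f D = scaleRoots f' D) : f = f' := by
  ext1 i
  have h1 : (scaleRoots f D).coeff i = (scaleRoots f' D).coeff i := by rw [h]
  rw [coeff_scaleRoots, coeff_scaleRoots, hf, hf'] at h1
  exact mul_right_cancel₀ (pow_ne_zero _ hD) h1

theorem mh_add (m h e : ℕ) : Mh m (h + e) = Mh m h + ∑ i : Fin m, (m - (i : ℕ)) * e := by
  unfold Mh
  rw [← Finset.sum_add_distrib]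
  refine Finset.sum_congr rfl fun i _ => ?_
  rw [Nat.mul_add]; omega

theorem pld (F : Type) [Field F] [Finite F] (h2 : (2 : F) ≠ 0) (n N : ℕ) :
    ∃ d, N ≤ d ∧ ∃ p : Fin n → F[X], Function.Injective p ∧
      ∀ i, (p i).Monic ∧ Irreducible (p i) ∧ (p i).natDegree = d := by
  have h3 : 3 ≤ Nat.card F := Pool.Agent.H40.GC.odd_card F h2
  -- choose d with n ≤ card Pr
  obtain ⟨d, hd⟩ : ∃ d, d = N + 2 * n + 4 := ⟨_, rfl⟩
  have hd1 : 1 ≤ d := by omega
  have h4 := Pool.Agent.H74.FS.prn h3 hd1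
  have h5 : 3 ^ d ≤ Nat.card F ^ d := Nat.pow_le_pow_left h3 d
  have h6 : ∀ d : ℕ, 4 ≤ d → d * d ≤ 3 ^ d := by
    intro d hd
    induction d, hd using Nat.le_induction with
    | base => norm_num
    | succ k hk ih =>
      rw [pow_succ]
      nlinarith
  have h7 : n ≤ (Pool.Agent.H94.PC.Pr F d).card := by
    by_contra hcon
    push Not at hcon
    have h8 := h6 d (by omega)
    have h9 : 2 * d * (Pool.Agent.H94.PC.Pr F d).card ≤ 2 * d * n := Nat.mul_le_mul_left _ hcon.le
    have h10 : d * (2 * n) < d * d := Nat.mul_lt_mul_of_pos_left (by omega) (by omega)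
    have h11 : 2 * d * n = d * (2 * n) := by ring
    omega
  obtain ⟨s, hs, hsc⟩ := Finset.exists_subset_card_eq h7
  refine ⟨d, by omega, fun i => (s.equivFinOfCardEq hsc).symm i, ?_, ?_⟩
  · intro a b hab
    exact (s.equivFinOfCardEq hsc).symm.injective (Subtype.ext hab)
  · intro i
    have h8 := hs ((s.equivFinOfCardEq hsc).symm i).2
    rw [Pool.Agent.H94.PC.mem_Pr] at h8
    exact ⟨h8.1, h8.2.2, h8.2.1⟩

theorem card_kv [Finite F] {P : F[X]} (hP : Irreducible P) :
    Nat.card F ^ P.natDegree ≤ Nat.card (kv (Pool.Agent.H94.LT.place P hP)) := by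
  classical
  have hinj : Function.Injective (fun c : Fin P.natDegree → F =>
      (Ideal.Quotient.mk (Pool.Agent.H94.LT.place P hP).asIdeal
        (∑ i : Fin P.natDegree, C (c i) * X ^ (i : ℕ)) : kv (Pool.Agent.H94.LT.place P hP))) := by
    intro c c' hcc
    have h1 : (∑ i : Fin P.natDegree, C (c i) * X ^ (i : ℕ)) - (∑ i : Fin P.natDegree, C (c' i) * X ^ (i : ℕ)) ∈
        Ideal.span {P} := (Ideal.Quotient.eq).1 hcc
    rw [Ideal.mem_span_singleton] at h1
    have h2 : (∑ i : Fin P.natDegree, C (c i) * X ^ (i : ℕ)) - (∑ i : Fin P.natDegree, C (c' i) * X ^ (i : ℕ)) =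
        ∑ i : Fin P.natDegree, C (c i - c' i) * X ^ (i : ℕ) := by
      rw [← Finset.sum_sub_distrib]
      refine Finset.sum_congr rfl fun i _ => ?_
      rw [C_sub]; ring
    rw [h2] at h1
    have h3 : (∑ i : Fin P.natDegree, C (c i - c' i) * X ^ (i : ℕ)).degree < P.degree := by
      rw [degree_eq_natDegree hP.ne_zero]
      refine (degree_sum_fin_lt _)
    have h4 := eq_zero_of_dvd_of_degree_lt h1 h3
    funext i
    have h5 : (∑ i : Fin P.natDegree, C (c i - c' i) * X ^ (i : ℕ)).coeff i = 0 := by rw [h4, coeff_zero]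
    rw [finsetSum_coeff] at h5
    simp only [coeff_C_mul, coeff_X_pow] at h5
    rw [Finset.sum_eq_single i] at h5
    · rw [if_pos rfl, mul_one] at h5
      exact sub_eq_zero.1 h5
    · intro j _ hj
      rw [if_neg, mul_zero]
      intro h6; exact hj (Fin.ext h6.symm)
    · intro h6; exact absurd (Finset.mem_univ i) h6
  have h1 := Nat.card_le_card_of_injective _ hinj
  rwa [Nat.card_fun, Nat.card_eq_fintype_card (α := Fin P.natDegree), Fintype.card_fin] at h1

theorem place_inj {Q Q' : F[X]} (hQ : Irreducible Q) (hQ' : Irreducible Q') (hm : Q.Monic) (hm' : Q'.Monic)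
    (h : Pool.Agent.H94.LT.place Q hQ = Pool.Agent.H94.LT.place Q' hQ') : Q = Q' := by
  have h1 : Ideal.span {Q} = Ideal.span {Q'} := congrArg HeightOneSpectrum.asIdeal h
  rw [Ideal.span_singleton_eq_span_singleton] at h1
  exact eq_of_monic_of_associated hm hm' h1

theorem div_ex {k d : ℕ} (p z : Fin k → F[X]) (hp : Function.Injective p) (hz : Function.Injective z)
    (hpz : ∀ i j, p i ≠ z j) (hp' : ∀ i, (p i).Monic ∧ Irreducible (p i) ∧ (p i).natDegree = d)
    (hz' : ∀ i, (z i).Monic ∧ Irreducible (z i) ∧ (z i).natDegree = d) (I : Finset (Fin k)) :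
    ∃ D : F[X], D.Monic ∧ D.natDegree = k * d ∧ (∀ i ∈ I, p i ∣ D ∧ ¬ p i ^ 2 ∣ D) ∧
      (∀ i ∉ I, ¬ p i ∣ D) ∧ ∀ Q : F[X], Irreducible Q → Q ∣ D →
        (∃ i ∈ I, Associated Q (p i)) ∨ ∃ j, Associated Q (z j) := by
  classical
  have hI : I.card ≤ k := by simpa using Finset.card_le_univ I
  obtain ⟨J, -, hJ⟩ := Finset.exists_subset_card_eq (s := (Finset.univ : Finset (Fin k))) (n := k - I.card)
    (by rw [Finset.card_univ, Fintype.card_fin]; omega)
  have key : ∀ {Q R : F[X]}, Irreducible Q → Q.Monic → Irreducible R → R.Monic → Q ∣ R → Q = R := by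
    intro Q R h1 h2 h3 h4 h5
    exact eq_of_monic_of_associated h2 h4 (h1.associated_of_dvd h3 h5)
  have hA : ∀ {Q : F[X]}, Irreducible Q → ∀ {s : Finset (Fin k)} {g : Fin k → F[X]},
      (∀ i, Irreducible (g i)) → Q ∣ ∏ i ∈ s, g i → ∃ i ∈ s, Associated Q (g i) := by
    intro Q hQ s g hg h
    obtain ⟨i, hi, h1⟩ := (Prime.dvd_finsetProd_iff hQ.prime g).1 h
    exact ⟨i, hi, hQ.associated_of_dvd (hg i) h1⟩
  refine ⟨(∏ i ∈ I, p i) * ∏ j ∈ J, z j, ?_, ?_, ?_, ?_, ?_⟩
  · exact (monic_prod_of_monic _ _ fun i _ => (hp' i).1).mul (monic_prod_of_monic _ _ fun i _ => (hz' i).1)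
  · rw [(monic_prod_of_monic _ _ fun i _ => (hp' i).1).natDegree_mul (monic_prod_of_monic _ _ fun i _ => (hz' i).1),
      natDegree_prod_of_monic _ _ fun i _ => (hp' i).1, natDegree_prod_of_monic _ _ fun i _ => (hz' i).1,
      Finset.sum_congr rfl fun i _ => (hp' i).2.2, Finset.sum_congr rfl fun i _ => (hz' i).2.2,
      Finset.sum_const, Finset.sum_const, hJ, smul_eq_mul, smul_eq_mul, ← Nat.add_mul]
    congr 1; omega
  · intro i hi
    refine ⟨(Finset.dvd_prod_of_mem p hi).mul_right _, ?_⟩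
    rintro ⟨R, hR⟩
    rw [← Finset.mul_prod_erase I p hi, sq, mul_assoc, mul_assoc] at hR
    have h1 : (∏ x ∈ I.erase i, p x) * ∏ j ∈ J, z j = p i * R :=
      mul_left_cancel₀ (hp' i).2.1.ne_zero hR
    have h2 : p i ∣ (∏ x ∈ I.erase i, p x) * ∏ j ∈ J, z j := ⟨R, h1⟩
    rcases (hp' i).2.1.prime.dvd_or_dvd h2 with h3 | h3
    · obtain ⟨l, hl, h4⟩ := hA (hp' i).2.1 (fun i => (hp' i).2.1) h3
      exact (Finset.ne_of_mem_erase hl) (hp (eq_of_monic_of_associated (hp' i).1 (hp' l).1 h4)).symm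
    · obtain ⟨l, hl, h4⟩ := hA (hp' i).2.1 (fun i => (hz' i).2.1) h3
      exact hpz i l (eq_of_monic_of_associated (hp' i).1 (hz' l).1 h4)
  · intro i hi h2
    rcases (hp' i).2.1.prime.dvd_or_dvd h2 with h3 | h3
    · obtain ⟨l, hl, h4⟩ := hA (hp' i).2.1 (fun i => (hp' i).2.1) h3
      rw [← hp (eq_of_monic_of_associated (hp' i).1 (hp' l).1 h4)] at hl
      exact hi hl
    · obtain ⟨l, hl, h4⟩ := hA (hp' i).2.1 (fun i => (hz' i).2.1) h3
      exact hpz i l (eq_of_monic_of_associated (hp' i).1 (hz' l).1 h4)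
  · intro Q hQ h2
    rcases hQ.prime.dvd_or_dvd h2 with h3 | h3
    · exact Or.inl (hA hQ (fun i => (hp' i).2.1) h3)
    · obtain ⟨l, _, h4⟩ := hA hQ (fun i => (hz' i).2.1) h3
      exact Or.inr ⟨l, h4⟩

end Pool.Agent.H40.GF
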