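import Pool.Agent.H40.GF.TWV

set_option autoImplicit false

/-!
# [H40 GF TWS] THEOREM G1 (MP_1bad5e_ag): triviality of the Selmer group and the change of coordinates

PROOF.
`map_overK`: `overK (scaleRoots f D) = scaleRoots (overK f) D`, `overKv (scaleRoots f D) v = scaleRoots (overKv f v) (constKv D v)`
(`map_scaleRoots`: the image of the leading coefficient `1` is not `0`).
`tw_sel`: irreducibility: if `scaleRoots f D = a * b` then, with the fraction field `K`, `overK f = scaleRoots (overK a)
D⁻¹ * scaleRoots (overK b) D⁻¹` (`mul_scaleRoots_of_noZeroDivisors`, `scaleRoots_mul`, `scaleRoots_one`); or: by `tw_iso` the ring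
`AdjoinRoot (overK (scaleRoots f D))` is isomorphic to the field `AdjoinRoot (overK f)` (`f` irreducible, so `overK f` is:
`Polynomial.Monic.irreducible_iff_irreducible_map_fraction_map`), so `overK (scaleRoots f D)` is irreducible (a domain of
the form `k[x]/(p)`, `p` monic of positive degree: `(p)` is prime, `Ideal.span_singleton_prime`, `Prime.irreducible`), and then
`scaleRoots f D`, which is monic, is irreducible by the same theorem.
Selmer: let `δ` satisfy `IsSel 1 (scaleRoots f D) δ`, `e` the isomorphism of `tw_iso` over `K = RatFunc F`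
(`D ≠ 0` in `K`).  Then `IsSel D f (e δ)`: `e δ ≠ 0`; `Algebra.norm K (e δ) = Algebra.norm K δ` (`Algebra.norm_eq_of_algEquiv`);
at `v`: let `e'` be the isomorphism over `K_v` (`constKv D v ≠ 0`); the two ring homomorphisms
`x ↦ e' (toLv (scaleRoots f D) v x)` and `x ↦ toLv f v (e x)` agree on `K` and on the root
(write `x = mk p` and compare ring homomorphisms from `K[X]`: `Polynomial.ringHom_ext`), and `tw_val` gives
`IsVal (constKv D v) (overKv f v) (e' (toLv .. δ))` (`constKv 1 v = 1`).  So `e δ = z ^ 2` and `δ = (e.symm z) ^ 2`.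
-/

namespace Pool.Agent.H40.GF

open Polynomial IsDedekindDomain
open Pool.Agent.H80.CC.Plane (overK overKv constKv toL toLv)
open Pool.Agent.H94.GG (IsMum desc IsVal IsSel SelTriv)

variable {F : Type} [Field F]

theorem map_overK (f : F[X][X]) (hf : f.Monic) (D : F[X]) :
    overK (scaleRoots f D) = scaleRoots (overK f) (algebraMap F[X] (RatFunc F) D) ∧
      ∀ v : HeightOneSpectrum F[X], overKv (scaleRoots f D) v = scaleRoots (overKv f v) (constKv D v) := by
  have h1 : overK (scaleRoots f D) = scaleRoots (overK f) (algebraMap F[X] (RatFunc F) D) := by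
    unfold overK
    rw [map_scaleRoots _ _ _ (by rw [hf.leadingCoeff, map_one]; exact one_ne_zero)]
  refine ⟨h1, fun v => ?_⟩
  have hm : (overK f).Monic := hf.map _
  unfold overKv
  rw [h1, map_scaleRoots _ _ _ (by rw [hm.leadingCoeff, map_one]; exact one_ne_zero)]
  rfl

private theorem irr_of_dom {k : Type} [Field k] {g : k[X]} (hg : g.Monic)
    (h : IsDomain (AdjoinRoot g)) : Irreducible g := by
  have h1 : Prime g := by
    rw [← Ideal.span_singleton_prime hg.ne_zero, ← Ideal.Quotient.isDomain_iff_prime]
    exact h
  exact h1.irreducible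

private theorem tw_irr {D : F[X]} (hD : D ≠ 0) {f : F[X][X]} (hf : f.Monic)
    (h : Irreducible f) : Irreducible (scaleRoots f D) := by
  have hd : algebraMap F[X] (RatFunc F) D ≠ 0 := by
    intro h0
    exact hD ((map_eq_zero_iff _ (IsFractionRing.injective F[X] (RatFunc F))).1 h0)
  have hs : (scaleRoots f D).Monic := (monic_scaleRoots_iff D).2 hf
  rw [hs.irreducible_iff_irreducible_map_fraction_map (K := RatFunc F)]
  have hirr : Irreducible (overK f) :=
    (hf.irreducible_iff_irreducible_map_fraction_map (K := RatFunc F)).1 h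
  obtain ⟨e, _⟩ := tw_iso hd (map_overK f hf D).1
  have hfact : Fact (Irreducible (overK f)) := ⟨hirr⟩
  have hdom : IsDomain (AdjoinRoot (overK f)) := inferInstance
  exact irr_of_dom (hs.map _) (e.toMulEquiv.isDomain _)

theorem tw_sel {D : F[X]} (hD : D ≠ 0) {f : F[X][X]} (hf : f.Monic) (hodd : Odd f.natDegree)
    (h : SelTriv D f) : SelTriv 1 (scaleRoots f D) := by
  have hd : algebraMap F[X] (RatFunc F) D ≠ 0 := by
    intro h0
    exact hD ((map_eq_zero_iff _ (IsFractionRing.injective F[X] (RatFunc F))).1 h0)
  refine ⟨tw_irr hD hf h.irr, fun δ hδ => ?_⟩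
  obtain ⟨e, he⟩ := tw_iso hd (map_overK f hf D).1
  have hsel : IsSel D f (e δ) := by
    refine ⟨?_, ?_, fun v => ?_⟩
    · intro h0
      exact hδ.ne_zero ((map_eq_zero_iff e e.injective).1 h0)
    · obtain ⟨y, hy⟩ := hδ.norm
      exact ⟨y, by rw [Algebra.norm_eq_of_algEquiv e, hy]⟩
    · have hdv : constKv D v ≠ 0 := by
        intro h0
        exact hd ((map_eq_zero_iff _
          (algebraMap (RatFunc F) (v.adicCompletion (RatFunc F))).injective).1 h0)
      obtain ⟨e', he'⟩ := tw_iso hdv ((map_overK f hf D).2 v)
      have hone : constKv (1 : F[X]) v = 1 := by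
        unfold constKv
        rw [map_one, map_one]
      have h1 := hδ.locally v
      rw [hone] at h1
      have hmon : (overKv f v).Monic := (hf.map _).map _
      have hdeg : (overKv f v).natDegree = f.natDegree := by
        unfold overKv overK
        rw [(hf.map _).natDegree_map, hf.natDegree_map]
      have h2 := tw_val hdv hmon (by rw [hdeg]; exact hodd) ((map_overK f hf D).2 v) e' he' h1
      have h3 : toLv f v (e δ) = e' (toLv (scaleRoots f D) v δ) := by
        obtain ⟨p, rfl⟩ := AdjoinRoot.mk_surjective δ
        have h4 : ((toLv f v).comp (e : AdjoinRoot (overK (scaleRoots f D)) →+*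
              AdjoinRoot (overK f))).comp (AdjoinRoot.mk (overK (scaleRoots f D))) =
            (((e' : AdjoinRoot (overKv (scaleRoots f D) v) →+*
              AdjoinRoot (overKv f v))).comp (toLv (scaleRoots f D) v)).comp
                (AdjoinRoot.mk (overK (scaleRoots f D))) := by
          apply Polynomial.ringHom_ext
          · intro a
            simp only [RingHom.comp_apply, AdjoinRoot.mk_C, RingHom.coe_coe]
            have e1 : e (AdjoinRoot.of _ a) = AdjoinRoot.of _ a := e.commutes a
            rw [e1]
            unfold toLv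
            rw [AdjoinRoot.map_of, AdjoinRoot.map_of]
            exact (e'.commutes _).symm
          · simp only [RingHom.comp_apply, AdjoinRoot.mk_X, RingHom.coe_coe]
            rw [he, map_mul]
            unfold toLv
            rw [AdjoinRoot.map_root, AdjoinRoot.map_root, he']
            congr 1
            exact AdjoinRoot.map_of _ _ _ _ _
        exact RingHom.congr_fun h4 p
      rw [h3]
      exact h2
  obtain ⟨z, hz⟩ := h.triv _ hsel
  refine ⟨e.symm z, ?_⟩
  rw [← map_pow, ← hz, AlgEquiv.symm_apply_apply]

end Pool.Agent.H40.GF
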