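import Pool.Agent.H40.GC.ENG
import Pool.Agent.H40.GC.LTO
import Pool.Agent.H40.GF.TWS
import Pool.Agent.H40.GF.TWF
import Pool.Agent.H40.GF.NSM
import Pool.Agent.H74.GR.UE

set_option autoImplicit false

/-!
# [H40 GF G1A] THEOREM G1 (MP_1bad5e_ag): assembly
-/

namespace Pool.Agent.H40.GF

open Polynomial IsDedekindDomain
open Pool.Agent.H80.CC.Plane (overK overKv constKv toL toLv)
open Pool.Agent.H94 (LT.place)
open Pool.Agent.H94.GG (Fam lead Smooth Special Harmless IsS0 SqAt IsSel SelTriv)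
open Pool.Agent.H40.GC (FamS kv rv Mh)

variable {F : Type} [Field F]

/-- the places of small degree -/
theorem small_fin [Finite F] (M : ℕ) :
    {v : HeightOneSpectrum F[X] | ∃ Q : F[X], Q.natDegree ≤ M ∧ v.asIdeal = Ideal.span {Q}}.Finite := by
  have h1 : ((fun Q : F[X] => Ideal.span {Q}) '' {Q : F[X] | Q.natDegree ≤ M}).Finite :=
    (Pool.Agent.H94.PC.finite_natDegree_le F M).image _
  refine (h1.preimage (f := fun v : HeightOneSpectrum F[X] => v.asIdeal) ?_).subset ?_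
  · intro v _ w _ h
    exact HeightOneSpectrum.ext h
  · rintro v ⟨Q, h2, h3⟩
    exact ⟨Q, h2, h3.symm⟩

theorem place_as {Q : F[X]} (hQ : Irreducible Q) : (LT.place Q hQ).asIdeal = Ideal.span {Q} := rfl

/-- the good polynomials give trivial Selmer groups for one of the twists -/
theorem good_twist [Finite F] (h2 : (2 : F) ≠ 0) {g h k d : ℕ} (hg : 1 ≤ g) (p z : Fin k → F[X])
    (hp : Function.Injective p) (hz : Function.Injective z) (hpz : ∀ i j, p i ≠ z j)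
    (hp' : ∀ i, (p i).Monic ∧ Irreducible (p i) ∧ (p i).natDegree = d)
    (hz' : ∀ i, (z i).Monic ∧ Irreducible (z i) ∧ (z i).natDegree = d) (D : Finset (Fin k) → F[X])
    (hD : ∀ I, (D I).Monic ∧ (D I).natDegree = k * d ∧ (∀ i ∈ I, p i ∣ D I ∧ ¬ p i ^ 2 ∣ D I) ∧
      (∀ i ∉ I, ¬ p i ∣ D I) ∧ ∀ Q : F[X], Irreducible Q → Q ∣ D I →
        (∃ i ∈ I, Associated Q (p i)) ∨ ∃ j, Associated Q (z j)) (f : F[X][X])
    (hf : Fam (2 * g + 1) h f) (hl : Irreducible (lead (2 * g + 1) h f)) (hs : Smooth f)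
    (hsp : ∀ i, Special f (LT.place (p i) (hp' i).2.1)) (hha : ∀ i, Harmless f (LT.place (z i) (hz' i).2.1))
    (hS : ∀ δ, IsS0 f δ → (∀ i, SqAt f (LT.place (p i) (hp' i).2.1) δ) → IsSquare δ) :
    ∃ I, SelTriv (D I) f := by
  classical
  have hdd : IsDedekindDomain (AdjoinRoot f) := H13.SM.ded (2 * g + 1) h (by omega) f hf hl hs
  obtain ⟨hirr, hirr'⟩ := Pool.Agent.H40.GC.hirr (by omega) hf hl
  obtain ⟨J, hJ, hJ2⟩ := Pool.Agent.H74.GR.g1_choice h2 (n := g) f hf rfl hl hirr'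
    (Finset.univ.image fun i => LT.place (p i) (hp' i).2.1) (by
      intro v hv
      obtain ⟨i, _, rfl⟩ := Finset.mem_image.1 hv
      exact hsp i) (by
      intro δ hδ h3
      obtain ⟨y, hy⟩ := hS δ hδ fun i => h3 _ (Finset.mem_image_of_mem _ (Finset.mem_univ i))
      exact ⟨y, by rw [hy, sq]⟩)
  refine ⟨Finset.univ.filter fun i => LT.place (p i) (hp' i).2.1 ∈ J, hirr, ?_⟩
  obtain ⟨_, _, h4, h5, h6⟩ := hD (Finset.univ.filter fun i => LT.place (p i) (hp' i).2.1 ∈ J)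
  have hmem : ∀ (a : F[X]) {Q : F[X]} (hQ : Irreducible Q), a ∈ (LT.place Q hQ).asIdeal ↔ Q ∣ a := by
    intro a Q hQ
    rw [place_as, Ideal.mem_span_singleton]
  refine hJ2 _ ?_ ?_ ?_
  · intro v hv
    obtain ⟨i, _, rfl⟩ := Finset.mem_image.1 (hJ hv)
    obtain ⟨h7, h8⟩ := h4 i (Finset.mem_filter.2 ⟨Finset.mem_univ i, hv⟩)
    refine ⟨(hmem _ _).2 h7, ?_⟩
    rw [place_as, Ideal.span_singleton_pow, Ideal.mem_span_singleton]
    exact h8
  · intro v hv hvJ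
    obtain ⟨i, _, rfl⟩ := Finset.mem_image.1 hv
    rw [hmem]
    refine h5 i fun h7 => hvJ (Finset.mem_filter.1 h7).2
  · intro v hv
    obtain ⟨Q, hQ⟩ : ∃ Q : F[X], v.asIdeal = Ideal.span {Q} :=
      (IsPrincipalIdealRing.principal v.asIdeal).principal
    have hQ0 : Q ≠ 0 := by
      rintro rfl
      apply v.ne_bot
      rw [hQ, Ideal.span_singleton_eq_bot]
    have hQp : Irreducible Q := by
      have h7 := v.isPrime
      rw [hQ, Ideal.span_singleton_prime hQ0] at h7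
      exact h7.irreducible
    rw [hQ, Ideal.mem_span_singleton] at hv
    rcases h6 Q hQp hv with ⟨i, hi, h7⟩ | ⟨j, h7⟩
    · left
      have h8 : v = LT.place (p i) (hp' i).2.1 := by
        apply HeightOneSpectrum.ext
        rw [hQ, place_as, Ideal.span_singleton_eq_span_singleton]
        exact h7
      rw [h8]
      exact (Finset.mem_filter.1 hi).2
    · right
      have h8 : v = LT.place (z j) (hz' j).2.1 := by
        apply HeightOneSpectrum.ext
        rw [hQ, place_as, Ideal.span_singleton_eq_span_singleton]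
        exact h7
      rw [h8]
      exact hha j

/-- **THEOREM G1.** -/
theorem g1 (F : Type) [Field F] [Finite F] (h2 : (2 : F) ≠ 0) {g : ℕ} (hg : 1 ≤ g) :
    ∃ c : ℝ, 0 < c ∧ ∃ h0 : ℕ, ∀ h : ℕ, h0 ≤ h →
      c * (Nat.card {f : F[X][X] // Fam (2 * g + 1) h f} : ℝ) ≤
        (Nat.card {f : F[X][X] // Fam (2 * g + 1) h f ∧ SelTriv 1 f} : ℝ) := by
  classical
  have hq3 := Pool.Agent.H40.GC.odd_card F h2
  have hq : (1 : ℝ) < Nat.card F := by exact_mod_cast (by omega : 1 < Nat.card F)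
  have hLat : ∀ (h : ℕ) (f : F[X][X]), 1 ≤ h → Fam (2 * g + 1) h f →
      Irreducible (lead (2 * g + 1) h f) → Smooth f → Pool.Agent.H40.GC.LatO g h f :=
    fun h f _ hf hl hs => Pool.Agent.H40.GC.lato hg h f hf hl hs
  -- the small places
  obtain ⟨M, hM⟩ : ∃ M : ℕ, 2 * ((2 * g + 1 : ℕ) : ℝ) / (Nat.card F : ℝ) ^ (M + 1) ≤ 1 / 8 := by
    obtain ⟨M, hM⟩ := pow_unbounded_of_one_lt (16 * ((2 * g + 1 : ℕ) : ℝ)) hq
    refine ⟨M, ?_⟩
    rw [div_le_iff₀ (by positivity)]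
    have h3 : (Nat.card F : ℝ) ^ M ≤ (Nat.card F : ℝ) ^ (M + 1) := pow_le_pow_right₀ hq.le (Nat.le_succ M)
    linarith
  obtain ⟨Z0, hZ0⟩ : ∃ Z0 : Finset (HeightOneSpectrum F[X]), ∀ v, v ∈ Z0 ↔
      ∃ Q : F[X], Q.natDegree ≤ M ∧ v.asIdeal = Ideal.span {Q} :=
    ⟨(small_fin M).toFinset, fun v => by rw [Set.Finite.mem_toFinset]; rfl⟩
  obtain ⟨C, hC0, hC⟩ := Pool.Agent.H40.GC.eng F h2 hg hLat Z0
  obtain ⟨k, hk⟩ := pow_unbounded_of_one_lt (4 * C) (by norm_num : (1 : ℝ) < 2)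
  obtain ⟨d0, hd0⟩ := hC (2 * k)
  obtain ⟨d, hd, r, hr, hr'⟩ := pld F h2 (k + k) (max (M + 1) d0)
  obtain ⟨p, hp⟩ : ∃ p : Fin k → F[X], p = fun i => r (Fin.castAdd k i) := ⟨_, rfl⟩
  obtain ⟨z, hz⟩ : ∃ z : Fin k → F[X], z = fun i => r (Fin.natAdd k i) := ⟨_, rfl⟩
  have hpi : Function.Injective p := by
    intro i j hij
    rw [hp] at hij
    exact Fin.castAdd_injective k k (hr hij)
  have hzi : Function.Injective z := by
    intro i j hij
    rw [hz] at hij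
    exact Fin.natAdd_injective k k (hr hij)
  have hpz : ∀ i j, p i ≠ z j := by
    intro i j hij
    rw [hp, hz] at hij
    have h3 := congrArg Fin.val (hr hij)
    simp only [Fin.val_castAdd, Fin.val_natAdd] at h3
    have := i.2
    omega
  have hp' : ∀ i, (p i).Monic ∧ Irreducible (p i) ∧ (p i).natDegree = d := fun i => by
    rw [hp]
    exact hr' _
  have hz' : ∀ i, (z i).Monic ∧ Irreducible (z i) ∧ (z i).natDegree = d := fun i => by
    rw [hz]
    exact hr' _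
  choose D hD using div_ex p z hpi hzi hpz hp' hz'
  obtain ⟨P, hP⟩ : ∃ P : Finset (HeightOneSpectrum F[X]),
      P = Finset.univ.image fun i => LT.place (p i) (hp' i).2.1 := ⟨_, rfl⟩
  obtain ⟨Z, hZ⟩ : ∃ Z : Finset (HeightOneSpectrum F[X]),
      Z = Finset.univ.image fun i => LT.place (z i) (hz' i).2.1 := ⟨_, rfl⟩
  have hPc : P.card = k := by
    rw [hP, Finset.card_image_of_injective, Finset.card_univ, Fintype.card_fin]
    intro i j hij
    exact hpi (place_inj (hp' i).2.1 (hp' j).2.1 (hp' i).1 (hp' j).1 hij)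
  have hZc : Z.card ≤ k := by
    rw [hZ]
    exact Finset.card_image_le.trans (by rw [Finset.card_univ, Fintype.card_fin])
  have hPZ : Disjoint P Z := by
    rw [Finset.disjoint_left]
    intro v hv hv'
    rw [hP] at hv
    rw [hZ] at hv'
    obtain ⟨i, _, rfl⟩ := Finset.mem_image.1 hv
    obtain ⟨j, _, hj⟩ := Finset.mem_image.1 hv'
    exact hpz i j (place_inj (hp' i).2.1 (hz' j).2.1 (hp' i).1 (hz' j).1 hj.symm)
  have hPZ0 : Disjoint P Z0 := by
    rw [Finset.disjoint_left]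
    intro v hv hv'
    rw [hP] at hv
    obtain ⟨i, _, rfl⟩ := Finset.mem_image.1 hv
    obtain ⟨Q, hQ1, hQ2⟩ := (hZ0 _).1 hv'
    rw [place_as, Ideal.span_singleton_eq_span_singleton] at hQ2
    have h3 := natDegree_eq_of_degree_eq (degree_eq_degree_of_associated hQ2)
    rw [(hp' i).2.2] at h3
    have := le_max_left (M + 1) d0
    omega
  have hcard : ∀ (Q : F[X]) (hQ : Irreducible Q), Q.natDegree = d → d0 ≤ Nat.card (kv (LT.place Q hQ)) := by
    intro Q hQ hQd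
    refine le_trans ?_ (card_kv hQ)
    rw [hQd]
    have h3 : d < Nat.card F ^ d := Nat.lt_pow_self (by omega)
    have := le_max_right (M + 1) d0
    omega
  obtain ⟨h1, hh1⟩ := hd0 P Z hPZ hPZ0 (by omega) (by
    intro v hv
    rw [hP] at hv
    obtain ⟨i, _, rfl⟩ := Finset.mem_image.1 hv
    exact hcard _ _ (hp' i).2.2) (by
    intro v hv
    rw [hZ] at hv
    obtain ⟨i, _, rfl⟩ := Finset.mem_image.1 hv
    exact hcard _ _ (hz' i).2.2)
  obtain ⟨h2', hh2⟩ := nsm h2 (m := 2 * g + 1) (by omega) M P (Z0 ∪ Z) (by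
    intro Q hQ hQM
    refine ⟨LT.place Q hQ, Finset.mem_union_right _ (Finset.mem_union_left _ ((hZ0 _).2 ⟨Q, hQM, rfl⟩)), ?_⟩
    rw [place_as]
    exact Ideal.mem_span_singleton_self Q) (1 / 8) (by norm_num)
  have hPZZ : Disjoint P (Z0 ∪ Z) := Finset.disjoint_union_right.2 ⟨hPZ0, hPZ⟩
  obtain ⟨h3', hh3⟩ := Pool.Agent.H40.GC.enc_low h2 hg hPZZ
  obtain ⟨c0, hc0⟩ : ∃ c0 : ℝ, c0 = (1 / (2 * (2 * g + 1 : ℝ))) ^ (P.card + (Z0 ∪ Z).card + 1) := ⟨_, rfl⟩
  have hc0' : 0 < c0 := by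
    rw [hc0]
    positivity
  rw [← hc0] at hh3
  obtain ⟨E, hE⟩ : ∃ E : ℕ, E = ∑ i : Fin (2 * g + 1), (2 * g + 1 - (i : ℕ)) * (k * d) := ⟨_, rfl⟩
  refine ⟨c0 / 2 / 2 ^ k / (Nat.card F : ℝ) ^ E, by positivity, max h1 (max h2' h3') + k * d, fun h' hh' => ?_⟩
  obtain ⟨h, rfl⟩ : ∃ h, h' = h + k * d := ⟨h' - k * d, by omega⟩
  have hge1 : h1 ≤ h := by have := le_max_left h1 (max h2' h3'); omega
  have hge2 : h2' ≤ h := by
    have := le_max_right h1 (max h2' h3')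
    have := le_max_left h2' h3'
    omega
  have hge3 : h3' ≤ h := by
    have := le_max_right h1 (max h2' h3')
    have := le_max_right h2' h3'
    omega
  have e1 := hh1 h hge1
  have e2 := hh2 h hge2
  have e3 := hh3 h hge3
  -- sets
  obtain ⟨A, hA⟩ : ∃ A : Set F[X][X], A = {f | FamS (2 * g + 1) h P (Z0 ∪ Z) f} := ⟨_, rfl⟩
  obtain ⟨B1, hB1⟩ : ∃ B1 : Set F[X][X], B1 = {f | FamS (2 * g + 1) h P (Z0 ∪ Z) f ∧ Smooth f ∧
      ∃ δ : AdjoinRoot (overK f), IsS0 f δ ∧ ¬ IsSquare δ ∧ ∀ v ∈ P, SqAt f v δ} := ⟨_, rfl⟩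
  obtain ⟨B2, hB2⟩ : ∃ B2 : Set F[X][X], B2 = {f | FamS (2 * g + 1) h P (Z0 ∪ Z) f ∧ ¬ Smooth f} := ⟨_, rfl⟩
  obtain ⟨T, hT⟩ : ∃ T : Set F[X][X], T = {f | Fam (2 * g + 1) (h + k * d) f ∧ SelTriv 1 f} := ⟨_, rfl⟩
  have n1 : (Nat.card {f : F[X][X] // FamS (2 * g + 1) h P (Z0 ∪ Z) f} : ℝ) = A.ncard := by rw [hA]; rfl
  have n2 : (Nat.card {f : F[X][X] // FamS (2 * g + 1) h P (Z0 ∪ Z) f ∧ Smooth f ∧
      ∃ δ : AdjoinRoot (overK f), IsS0 f δ ∧ ¬ IsSquare δ ∧ ∀ v ∈ P, SqAt f v δ} : ℝ) = B1.ncard := by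
    rw [hB1]; rfl
  have n3 : (Nat.card {f : F[X][X] // FamS (2 * g + 1) h P (Z0 ∪ Z) f ∧ ¬ Smooth f} : ℝ) = B2.ncard := by
    rw [hB2]; rfl
  have n4 : (Nat.card {f : F[X][X] // Fam (2 * g + 1) (h + k * d) f ∧ SelTriv 1 f} : ℝ) = T.ncard := by
    rw [hT]; rfl
  rw [n1, n2, hPc] at e1
  rw [n1, n3] at e2
  rw [n1] at e3
  rw [n4]
  have hfinT : T.Finite := by
    rw [hT]
    exact (H13.SM.fam_fin (2 * g + 1) (h + k * d)).subset fun f hf => hf.1
  have hfinA : A.Finite := by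
    rw [hA]
    exact Pool.Agent.H40.GC.fams_fin _ _ _ _
  -- the covering
  have hcov : A ⊆ B1 ∪ B2 ∪ ⋃ I ∈ (Finset.univ : Finset (Finset (Fin k))),
      {f | Fam (2 * g + 1) h f ∧ SelTriv (D I) f} := by
    intro f hf
    rw [hA] at hf
    obtain ⟨hf1, hf2, hf3, hf4⟩ := hf
    by_cases hs : Smooth f
    · by_cases hst : ∃ δ : AdjoinRoot (overK f), IsS0 f δ ∧ ¬ IsSquare δ ∧ ∀ v ∈ P, SqAt f v δ
      · left; left
        rw [hB1]
        exact ⟨⟨hf1, hf2, hf3, hf4⟩, hs, hst⟩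
      · right
        obtain ⟨I, hI⟩ := good_twist h2 hg p z hpi hzi hpz hp' hz' D hD f hf1 hf2 hs (by
          intro i
          apply hf3
          rw [hP]
          exact Finset.mem_image_of_mem _ (Finset.mem_univ i)) (by
          intro i
          apply hf4
          refine Finset.mem_union_right _ ?_
          rw [hZ]
          exact Finset.mem_image_of_mem _ (Finset.mem_univ i)) (by
          intro δ hδ h5
          by_contra h6
          refine hst ⟨δ, hδ, h6, fun v hv => ?_⟩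
          rw [hP] at hv
          obtain ⟨i, _, rfl⟩ := Finset.mem_image.1 hv
          exact h5 i)
        simp only [Set.mem_iUnion]
        exact ⟨I, Finset.mem_univ I, hf1, hI⟩
    · left; right
      rw [hB2]
      exact ⟨⟨hf1, hf2, hf3, hf4⟩, hs⟩
  have hTI : ∀ I : Finset (Fin k), {f | Fam (2 * g + 1) h f ∧ SelTriv (D I) f}.ncard ≤ T.ncard := by
    intro I
    refine Set.ncard_le_ncard_of_injOn (fun f => scaleRoots f (D I)) ?_ ?_ hfinT
    · rintro f ⟨hf1, hf2⟩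
      rw [hT]
      refine ⟨tw_fam hf1 (hD I).2.1, tw_sel (hD I).1.ne_zero hf1.monic ?_ hf2⟩
      rw [hf1.deg]
      exact ⟨g, rfl⟩
    · rintro f ⟨hf1, _⟩ f' ⟨hf1', _⟩ hff
      exact tw_inj hf1.deg hf1'.deg (hD I).1.ne_zero hff
  have hfinB1 : B1.Finite := hfinA.subset (by rw [hA, hB1]; exact fun f hf => hf.1)
  have hfinB2 : B2.Finite := hfinA.subset (by rw [hA, hB2]; exact fun f hf => hf.1)
  have hfinU : (⋃ I ∈ (Finset.univ : Finset (Finset (Fin k))),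
      {f | Fam (2 * g + 1) h f ∧ SelTriv (D I) f}).Finite :=
    (H13.SM.fam_fin (2 * g + 1) h).subset (by
      intro f hf
      simp only [Set.mem_iUnion] at hf
      obtain ⟨I, _, hf1, _⟩ := hf
      exact hf1)
  have hU : (⋃ I ∈ (Finset.univ : Finset (Finset (Fin k))),
      {f | Fam (2 * g + 1) h f ∧ SelTriv (D I) f}).ncard ≤ 2 ^ k * T.ncard := by
    have h5 : (⋃ I ∈ (Finset.univ : Finset (Finset (Fin k))),
        {f | Fam (2 * g + 1) h f ∧ SelTriv (D I) f}).ncard ≤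
        ∑ I ∈ (Finset.univ : Finset (Finset (Fin k))), {f | Fam (2 * g + 1) h f ∧ SelTriv (D I) f}.ncard := by
      have h6 := Finset.set_ncard_biUnion_le (Finset.univ : Finset (Finset (Fin k)))
        (fun I => {f : F[X][X] | Fam (2 * g + 1) h f ∧ SelTriv (D I) f})
      exact h6
    refine h5.trans ((Finset.sum_le_sum fun I _ => hTI I).trans ?_)
    rw [Finset.sum_const, Finset.card_univ, Fintype.card_finset, Fintype.card_fin, smul_eq_mul]
  have hAle : A.ncard ≤ B1.ncard + B2.ncard + 2 ^ k * T.ncard := by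
    refine (Set.ncard_le_ncard hcov ((hfinB1.union hfinB2).union hfinU)).trans ?_
    refine (Set.ncard_union_le _ _).trans ?_
    exact Nat.add_le_add (Set.ncard_union_le _ _) hU
  have hAle' : (A.ncard : ℝ) ≤ B1.ncard + B2.ncard + 2 ^ k * T.ncard := by exact_mod_cast hAle
  -- numbers
  have hA0 : (0 : ℝ) ≤ A.ncard := Nat.cast_nonneg _
  have h2k : (0 : ℝ) < 2 ^ k := by positivity
  have b1 : (B1.ncard : ℝ) ≤ A.ncard / 4 := by
    have h5 : C * (A.ncard : ℝ) ≤ 2 ^ k / 4 * A.ncard := mul_le_mul_of_nonneg_right (by linarith) hA0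
    have h6 : (2 : ℝ) ^ k * B1.ncard ≤ 2 ^ k * (A.ncard / 4) := by linarith
    exact le_of_mul_le_mul_left h6 h2k
  have b2 : (B2.ncard : ℝ) ≤ A.ncard / 4 := by
    refine e2.trans ?_
    have h5 : (2 * ((2 * g + 1 : ℕ) : ℝ) / (Nat.card F : ℝ) ^ (M + 1) + 1 / 8) * (A.ncard : ℝ) ≤
        (1 / 8 + 1 / 8) * A.ncard := mul_le_mul_of_nonneg_right (by linarith) hA0
    linarith
  have b3 : (A.ncard : ℝ) / 2 ≤ 2 ^ k * T.ncard := by linarith
  have hFam : (Nat.card {f : F[X][X] // Fam (2 * g + 1) (h + k * d) f} : ℝ) =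
      (Nat.card {f : F[X][X] // Fam (2 * g + 1) h f} : ℝ) * (Nat.card F : ℝ) ^ E := by
    rw [Pool.Agent.H40.GC.fmc_all, Pool.Agent.H40.GC.fmc_all, mh_add, pow_add, ← hE]
    push_cast
    ring
  rw [hFam]
  have hqE : (0 : ℝ) < (Nat.card F : ℝ) ^ E := by positivity
  have h7 : c0 / 2 / 2 ^ k / (Nat.card F : ℝ) ^ E *
      ((Nat.card {f : F[X][X] // Fam (2 * g + 1) h f} : ℝ) * (Nat.card F : ℝ) ^ E) =
      (c0 * (Nat.card {f : F[X][X] // Fam (2 * g + 1) h f} : ℝ)) / 2 / 2 ^ k := by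
    field_simp
  rw [h7, div_le_iff₀ h2k]
  linarith

end Pool.Agent.H40.GF
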