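import Pool.Agent.H40.GF.G1A
import Pool.Agent.H74.GR.WB

set_option autoImplicit false

/-!
# [H40 GF G1B] THEOREM G1 (MP_1bad5e_ag): assembly, with separability
-/

namespace Pool.Agent.H40.GF

open Polynomial IsDedekindDomain
open Pool.Agent.H80.CC.Plane (overK overKv constKv toL toLv)
open Pool.Agent.H94 (LT.place)
open Pool.Agent.H94.GG (Fam lead Smooth Special Harmless IsS0 SqAt IsSel SelTriv)
open Pool.Agent.H40.GC (FamS kv rv Mh)

/-- **THEOREM G1.** -/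
theorem g1_fin (F : Type) [Field F] [Finite F] (h2 : (2 : F) ≠ 0) {g : ℕ} (hg : 1 ≤ g) :
    ∃ c : ℝ, 0 < c ∧ ∃ h0 : ℕ, ∀ h : ℕ, h0 ≤ h →
      c * (Nat.card {f : F[X][X] // Fam (2 * g + 1) h f} : ℝ) ≤
        (Nat.card {f : F[X][X] // Fam (2 * g + 1) h f ∧ (overK f).Separable ∧ SelTriv 1 f} : ℝ) := by
  classical
  have hq3 := Pool.Agent.H40.GC.odd_card F h2
  have hq : (1 : ℝ) < Nat.card F := by exact_mod_cast (by omega : 1 < Nat.card F)
  have hLat : ∀ (h : ℕ) (f : F[X][X]), 1 ≤ h → Fam (2 * g + 1) h f →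
      Irreducible (lead (2 * g + 1) h f) → Smooth f → Pool.Agent.H40.GC.LatO g h f :=
    fun h f _ hf hl hs => Pool.Agent.H40.GC.lato hg h f hf hl hs
  -- the small places
  obtain ⟨M, hM⟩ : ∃ M : ℕ, 2 * ((2 * g + 1 : ℕ) : ℝ) / (Nat.card F : ℝ) ^ (M + 1) ≤ 1 / 8 := by
    obtain ⟨M, hM⟩ := pow_unbounded_of_one_lt (16 * ((2 * g + 1 : ℕ) : ℝ)) hq
    refine ⟨M, ?_⟩
    rw [div_le_iff₀ (by positivity)]
    have h3 : (Nat.card F : ℝ) ^ M ≤ (Nat.card F : ℝ) ^ (M + 1) := pow_le_pow_right₀ hq.le (Nat.le_succ M)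
    linarith
  obtain ⟨Z0, hZ0⟩ : ∃ Z0 : Finset (HeightOneSpectrum F[X]), ∀ v, v ∈ Z0 ↔
      ∃ Q : F[X], Q.natDegree ≤ M ∧ v.asIdeal = Ideal.span {Q} :=
    ⟨(small_fin M).toFinset, fun v => by rw [Set.Finite.mem_toFinset]; rfl⟩
  obtain ⟨C, hC0, hC⟩ := Pool.Agent.H40.GC.eng F h2 hg hLat Z0
  obtain ⟨k, hk, hk1⟩ : ∃ k : ℕ, 4 * C < 2 ^ k ∧ 1 ≤ k := by
    obtain ⟨k', hk'⟩ := pow_unbounded_of_one_lt (4 * C) (by norm_num : (1 : ℝ) < 2)
    refine ⟨k' + 1, hk'.trans_le (pow_le_pow_right₀ (by norm_num) (Nat.le_succ k')), by omega⟩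
  obtain ⟨d0, hd0⟩ := hC (2 * k)
  obtain ⟨d, hd, r, hr, hr'⟩ := pld F h2 (k + k) (max (M + 1) d0)
  obtain ⟨p, hp⟩ : ∃ p : Fin k → F[X], p = fun i => r (Fin.castAdd k i) := ⟨_, rfl⟩
  obtain ⟨z, hz⟩ : ∃ z : Fin k → F[X], z = fun i => r (Fin.natAdd k i) := ⟨_, rfl⟩
  have hpi : Function.Injective p := by
    intro i j hij
    rw [hp] at hij
    exact Fin.castAdd_injective k k (hr hij)
  have hzi : Function.Injective z := by
    intro i j hij
    rw [hz] at hij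
    exact Fin.natAdd_injective k k (hr hij)
  have hpz : ∀ i j, p i ≠ z j := by
    intro i j hij
    rw [hp, hz] at hij
    have h3 := congrArg Fin.val (hr hij)
    simp only [Fin.val_castAdd, Fin.val_natAdd] at h3
    have := i.2
    omega
  have hp' : ∀ i, (p i).Monic ∧ Irreducible (p i) ∧ (p i).natDegree = d := fun i => by
    rw [hp]
    exact hr' _
  have hz' : ∀ i, (z i).Monic ∧ Irreducible (z i) ∧ (z i).natDegree = d := fun i => by
    rw [hz]
    exact hr' _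
  choose D hD using div_ex p z hpi hzi hpz hp' hz'
  obtain ⟨P, hP⟩ : ∃ P : Finset (HeightOneSpectrum F[X]),
      P = Finset.univ.image fun i => LT.place (p i) (hp' i).2.1 := ⟨_, rfl⟩
  obtain ⟨Z, hZ⟩ : ∃ Z : Finset (HeightOneSpectrum F[X]),
      Z = Finset.univ.image fun i => LT.place (z i) (hz' i).2.1 := ⟨_, rfl⟩
  have hPc : P.card = k := by
    rw [hP, Finset.card_image_of_injective, Finset.card_univ, Fintype.card_fin]
    intro i j hij
    exact hpi (place_inj (hp' i).2.1 (hp' j).2.1 (hp' i).1 (hp' j).1 hij)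
  have hZc : Z.card ≤ k := by
    rw [hZ]
    exact Finset.card_image_le.trans (by rw [Finset.card_univ, Fintype.card_fin])
  have hPZ : Disjoint P Z := by
    rw [Finset.disjoint_left]
    intro v hv hv'
    rw [hP] at hv
    rw [hZ] at hv'
    obtain ⟨i, _, rfl⟩ := Finset.mem_image.1 hv
    obtain ⟨j, _, hj⟩ := Finset.mem_image.1 hv'
    exact hpz i j (place_inj (hp' i).2.1 (hz' j).2.1 (hp' i).1 (hz' j).1 hj.symm)
  have hPZ0 : Disjoint P Z0 := by
    rw [Finset.disjoint_left]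
    intro v hv hv'
    rw [hP] at hv
    obtain ⟨i, _, rfl⟩ := Finset.mem_image.1 hv
    obtain ⟨Q, hQ1, hQ2⟩ := (hZ0 _).1 hv'
    rw [place_as, Ideal.span_singleton_eq_span_singleton] at hQ2
    have h3 := natDegree_eq_of_degree_eq (degree_eq_degree_of_associated hQ2)
    rw [(hp' i).2.2] at h3
    have := le_max_left (M + 1) d0
    omega
  have hcard : ∀ (Q : F[X]) (hQ : Irreducible Q), Q.natDegree = d → d0 ≤ Nat.card (kv (LT.place Q hQ)) := by
    intro Q hQ hQd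
    refine le_trans ?_ (card_kv hQ)
    rw [hQd]
    have h3 : d < Nat.card F ^ d := Nat.lt_pow_self (by omega)
    have := le_max_right (M + 1) d0
    omega
  obtain ⟨h1, hh1⟩ := hd0 P Z hPZ hPZ0 (by omega) (by
    intro v hv
    rw [hP] at hv
    obtain ⟨i, _, rfl⟩ := Finset.mem_image.1 hv
    exact hcard _ _ (hp' i).2.2) (by
    intro v hv
    rw [hZ] at hv
    obtain ⟨i, _, rfl⟩ := Finset.mem_image.1 hv
    exact hcard _ _ (hz' i).2.2)
  obtain ⟨h2', hh2⟩ := nsm h2 (m := 2 * g + 1) (by omega) M P (Z0 ∪ Z) (by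
    intro Q hQ hQM
    refine ⟨LT.place Q hQ, Finset.mem_union_right _ (Finset.mem_union_left _ ((hZ0 _).2 ⟨Q, hQM, rfl⟩)), ?_⟩
    rw [place_as]
    exact Ideal.mem_span_singleton_self Q) (1 / 8) (by norm_num)
  have hPZZ : Disjoint P (Z0 ∪ Z) := Finset.disjoint_union_right.2 ⟨hPZ0, hPZ⟩
  obtain ⟨h3', hh3⟩ := Pool.Agent.H40.GC.enc_low h2 hg hPZZ
  obtain ⟨c0, hc0⟩ : ∃ c0 : ℝ, c0 = (1 / (2 * (2 * g + 1 : ℝ))) ^ (P.card + (Z0 ∪ Z).card + 1) := ⟨_, rfl⟩
  have hc0' : 0 < c0 := by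
    rw [hc0]
    positivity
  rw [← hc0] at hh3
  obtain ⟨E, hE⟩ : ∃ E : ℕ, E = ∑ i : Fin (2 * g + 1), (2 * g + 1 - (i : ℕ)) * (k * d) := ⟨_, rfl⟩
  refine ⟨c0 / 2 / 2 ^ k / (Nat.card F : ℝ) ^ E, by positivity, max h1 (max h2' h3') + k * d, fun h' hh' => ?_⟩
  obtain ⟨h, rfl⟩ : ∃ h, h' = h + k * d := ⟨h' - k * d, by omega⟩
  have hge1 : h1 ≤ h := by have := le_max_left h1 (max h2' h3'); omega
  have hge2 : h2' ≤ h := by
    have := le_max_right h1 (max h2' h3')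
    have := le_max_left h2' h3'
    omega
  have hge3 : h3' ≤ h := by
    have := le_max_right h1 (max h2' h3')
    have := le_max_right h2' h3'
    omega
  have e1 := hh1 h hge1
  have e2 := hh2 h hge2
  have e3 := hh3 h hge3
  -- sets
  obtain ⟨A, hA⟩ : ∃ A : Set F[X][X], A = {f | FamS (2 * g + 1) h P (Z0 ∪ Z) f} := ⟨_, rfl⟩
  obtain ⟨B1, hB1⟩ : ∃ B1 : Set F[X][X], B1 = {f | FamS (2 * g + 1) h P (Z0 ∪ Z) f ∧ Smooth f ∧
      ∃ δ : AdjoinRoot (overK f), IsS0 f δ ∧ ¬ IsSquare δ ∧ ∀ v ∈ P, SqAt f v δ} := ⟨_, rfl⟩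
  obtain ⟨B2, hB2⟩ : ∃ B2 : Set F[X][X], B2 = {f | FamS (2 * g + 1) h P (Z0 ∪ Z) f ∧ ¬ Smooth f} := ⟨_, rfl⟩
  obtain ⟨T, hT⟩ : ∃ T : Set F[X][X], T = {f | Fam (2 * g + 1) (h + k * d) f ∧ (overK f).Separable ∧
      SelTriv 1 f} := ⟨_, rfl⟩
  have n1 : (Nat.card {f : F[X][X] // FamS (2 * g + 1) h P (Z0 ∪ Z) f} : ℝ) = A.ncard := by rw [hA]; rfl
  have n2 : (Nat.card {f : F[X][X] // FamS (2 * g + 1) h P (Z0 ∪ Z) f ∧ Smooth f ∧
      ∃ δ : AdjoinRoot (overK f), IsS0 f δ ∧ ¬ IsSquare δ ∧ ∀ v ∈ P, SqAt f v δ} : ℝ) = B1.ncard := by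
    rw [hB1]; rfl
  have n3 : (Nat.card {f : F[X][X] // FamS (2 * g + 1) h P (Z0 ∪ Z) f ∧ ¬ Smooth f} : ℝ) = B2.ncard := by
    rw [hB2]; rfl
  have n4 : (Nat.card {f : F[X][X] // Fam (2 * g + 1) (h + k * d) f ∧ (overK f).Separable ∧
      SelTriv 1 f} : ℝ) = T.ncard := by
    rw [hT]; rfl
  rw [n1, n2, hPc] at e1
  rw [n1, n3] at e2
  rw [n1] at e3
  rw [n4]
  have hfinT : T.Finite := by
    rw [hT]
    exact (H13.SM.fam_fin (2 * g + 1) (h + k * d)).subset fun f hf => hf.1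
  have hfinA : A.Finite := by
    rw [hA]
    exact Pool.Agent.H40.GC.fams_fin _ _ _ _
  -- the covering
  have hcov : A ⊆ B1 ∪ B2 ∪ ⋃ I ∈ (Finset.univ : Finset (Finset (Fin k))),
      {f | Fam (2 * g + 1) h f ∧ (overK f).Separable ∧ SelTriv (D I) f} := by
    intro f hf
    rw [hA] at hf
    obtain ⟨hf1, hf2, hf3, hf4⟩ := hf
    by_cases hs : Smooth f
    · by_cases hst : ∃ δ : AdjoinRoot (overK f), IsS0 f δ ∧ ¬ IsSquare δ ∧ ∀ v ∈ P, SqAt f v δ
      · left; left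
        rw [hB1]
        exact ⟨⟨hf1, hf2, hf3, hf4⟩, hs, hst⟩
      · right
        obtain ⟨I, hI⟩ := good_twist h2 hg p z hpi hzi hpz hp' hz' D hD f hf1 hf2 hs (by
          intro i
          apply hf3
          rw [hP]
          exact Finset.mem_image_of_mem _ (Finset.mem_univ i)) (by
          intro i
          apply hf4
          refine Finset.mem_union_right _ ?_
          rw [hZ]
          exact Finset.mem_image_of_mem _ (Finset.mem_univ i)) (by
          intro δ hδ h5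
          by_contra h6
          refine hst ⟨δ, hδ, h6, fun v hv => ?_⟩
          rw [hP] at hv
          obtain ⟨i, _, rfl⟩ := Finset.mem_image.1 hv
          exact h5 i)
        have hi0 : LT.place (p ⟨0, hk1⟩) (hp' ⟨0, hk1⟩).2.1 ∈ P := by
          rw [hP]
          exact Finset.mem_image_of_mem _ (Finset.mem_univ _)
        have hsep : (overK f).Separable :=
          Pool.Agent.H74.GR.sep_over hf1.monic _
            (PerfectField.separable_iff_squarefree.2 (sqf_spec (hf3 _ hi0)))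
        simp only [Set.mem_iUnion]
        exact ⟨I, Finset.mem_univ I, hf1, hsep, hI⟩
    · left; right
      rw [hB2]
      exact ⟨⟨hf1, hf2, hf3, hf4⟩, hs⟩
  have hTI : ∀ I : Finset (Fin k), {f | Fam (2 * g + 1) h f ∧ (overK f).Separable ∧ SelTriv (D I) f}.ncard ≤ T.ncard := by
    intro I
    refine Set.ncard_le_ncard_of_injOn (fun f => scaleRoots f (D I)) ?_ ?_ hfinT
    · rintro f ⟨hf1, hfs, hf2⟩
      rw [hT]
      refine ⟨tw_fam hf1 (hD I).2.1, Pool.Agent.H74.GR.sep_scale hf1.monic (hD I).1.ne_zero hfs,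
        tw_sel (hD I).1.ne_zero hf1.monic ?_ hf2⟩
      rw [hf1.deg]
      exact ⟨g, rfl⟩
    · rintro f ⟨hf1, _⟩ f' ⟨hf1', _⟩ hff
      exact tw_inj hf1.deg hf1'.deg (hD I).1.ne_zero hff
  have hfinB1 : B1.Finite := hfinA.subset (by rw [hA, hB1]; exact fun f hf => hf.1)
  have hfinB2 : B2.Finite := hfinA.subset (by rw [hA, hB2]; exact fun f hf => hf.1)
  have hfinU : (⋃ I ∈ (Finset.univ : Finset (Finset (Fin k))),
      {f | Fam (2 * g + 1) h f ∧ (overK f).Separable ∧ SelTriv (D I) f}).Finite :=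
    (H13.SM.fam_fin (2 * g + 1) h).subset (by
      intro f hf
      simp only [Set.mem_iUnion] at hf
      obtain ⟨I, _, hf1, _⟩ := hf
      exact hf1)
  have hU : (⋃ I ∈ (Finset.univ : Finset (Finset (Fin k))),
      {f | Fam (2 * g + 1) h f ∧ (overK f).Separable ∧ SelTriv (D I) f}).ncard ≤ 2 ^ k * T.ncard := by
    have h5 : (⋃ I ∈ (Finset.univ : Finset (Finset (Fin k))),
        {f | Fam (2 * g + 1) h f ∧ (overK f).Separable ∧ SelTriv (D I) f}).ncard ≤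
        ∑ I ∈ (Finset.univ : Finset (Finset (Fin k))), {f | Fam (2 * g + 1) h f ∧ (overK f).Separable ∧ SelTriv (D I) f}.ncard := by
      have h6 := Finset.set_ncard_biUnion_le (Finset.univ : Finset (Finset (Fin k)))
        (fun I => {f : F[X][X] | Fam (2 * g + 1) h f ∧ (overK f).Separable ∧ SelTriv (D I) f})
      exact h6
    refine h5.trans ((Finset.sum_le_sum fun I _ => hTI I).trans ?_)
    rw [Finset.sum_const, Finset.card_univ, Fintype.card_finset, Fintype.card_fin, smul_eq_mul]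
  have hAle : A.ncard ≤ B1.ncard + B2.ncard + 2 ^ k * T.ncard := by
    refine (Set.ncard_le_ncard hcov ((hfinB1.union hfinB2).union hfinU)).trans ?_
    refine (Set.ncard_union_le _ _).trans ?_
    exact Nat.add_le_add (Set.ncard_union_le _ _) hU
  have hAle' : (A.ncard : ℝ) ≤ B1.ncard + B2.ncard + 2 ^ k * T.ncard := by exact_mod_cast hAle
  -- numbers
  have hA0 : (0 : ℝ) ≤ A.ncard := Nat.cast_nonneg _
  have h2k : (0 : ℝ) < 2 ^ k := by positivity
  have b1 : (B1.ncard : ℝ) ≤ A.ncard / 4 := by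
    have h5 : C * (A.ncard : ℝ) ≤ 2 ^ k / 4 * A.ncard := mul_le_mul_of_nonneg_right (by linarith) hA0
    have h6 : (2 : ℝ) ^ k * B1.ncard ≤ 2 ^ k * (A.ncard / 4) := by linarith
    exact le_of_mul_le_mul_left h6 h2k
  have b2 : (B2.ncard : ℝ) ≤ A.ncard / 4 := by
    refine e2.trans ?_
    have h5 : (2 * ((2 * g + 1 : ℕ) : ℝ) / (Nat.card F : ℝ) ^ (M + 1) + 1 / 8) * (A.ncard : ℝ) ≤
        (1 / 8 + 1 / 8) * A.ncard := mul_le_mul_of_nonneg_right (by linarith) hA0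
    linarith
  have b3 : (A.ncard : ℝ) / 2 ≤ 2 ^ k * T.ncard := by linarith
  have hFam : (Nat.card {f : F[X][X] // Fam (2 * g + 1) (h + k * d) f} : ℝ) =
      (Nat.card {f : F[X][X] // Fam (2 * g + 1) h f} : ℝ) * (Nat.card F : ℝ) ^ E := by
    rw [Pool.Agent.H40.GC.fmc_all, Pool.Agent.H40.GC.fmc_all, mh_add, pow_add, ← hE]
    push_cast
    ring
  rw [hFam]
  have hqE : (0 : ℝ) < (Nat.card F : ℝ) ^ E := by positivity
  have h7 : c0 / 2 / 2 ^ k / (Nat.card F : ℝ) ^ E *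
      ((Nat.card {f : F[X][X] // Fam (2 * g + 1) h f} : ℝ) * (Nat.card F : ℝ) ^ E) =
      (c0 * (Nat.card {f : F[X][X] // Fam (2 * g + 1) h f} : ℝ)) / 2 / 2 ^ k := by
    field_simp
  rw [h7, div_le_iff₀ h2k]
  linarith

end Pool.Agent.H40.GF
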