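import Pool.Agent.H40.GF.G1A
import Pool.Agent.H74.GR.WB
import Pool.Agent.H94.GG.FH

set_option autoImplicit false

/-!
# [H40 GF G1C] THEOREM G1 (MP_1bad5e_ag): strong form

The polynomials which are counted are of the form `D ^ m f₀(x / D)`, `D` squarefree of positive degree, `f₀` smooth,
`(D, f₀, ∂f₀/∂x) = 1`, leading form of `f₀` irreducible.
-/

namespace Pool.Agent.H40.GF

open Polynomial IsDedekindDomain
open Pool.Agent.H80.CC.Plane (overK overKv constKv toL toLv)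
open Pool.Agent.H94 (LT.place)
open Pool.Agent.H94.GG (Fam lead Smooth Special Harmless IsS0 SqAt IsSel SelTriv)
open Pool.Agent.H40.GC (FamS kv rv Mh)

section

variable {F : Type} [Field F]

theorem div_sq {k d : ℕ} (p z : Fin k → F[X]) (hp : Function.Injective p) (hz : Function.Injective z)
    (hpz : ∀ i j, p i ≠ z j) (hp' : ∀ i, (p i).Monic ∧ Irreducible (p i) ∧ (p i).natDegree = d)
    (hz' : ∀ i, (z i).Monic ∧ Irreducible (z i) ∧ (z i).natDegree = d) (I : Finset (Fin k)) :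
    ∃ D : F[X], (D.Monic ∧ D.natDegree = k * d ∧ (∀ i ∈ I, p i ∣ D ∧ ¬ p i ^ 2 ∣ D) ∧
      (∀ i ∉ I, ¬ p i ∣ D) ∧ ∀ Q : F[X], Irreducible Q → Q ∣ D →
        (∃ i ∈ I, Associated Q (p i)) ∨ ∃ j, Associated Q (z j)) ∧ Squarefree D := by
  classical
  have hI : I.card ≤ k := by simpa using Finset.card_le_univ I
  obtain ⟨J, -, hJ⟩ := Finset.exists_subset_card_eq (s := (Finset.univ : Finset (Fin k))) (n := k - I.card)
    (by rw [Finset.card_univ, Fintype.card_fin]; omega)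
  have hA : ∀ {Q : F[X]}, Irreducible Q → ∀ {s : Finset (Fin k)} {g : Fin k → F[X]},
      (∀ i, Irreducible (g i)) → Q ∣ ∏ i ∈ s, g i → ∃ i ∈ s, Associated Q (g i) := by
    intro Q hQ s g hg h
    obtain ⟨i, hi, h1⟩ := (Prime.dvd_finsetProd_iff hQ.prime g).1 h
    exact ⟨i, hi, hQ.associated_of_dvd (hg i) h1⟩
  have hc : ∀ {Q R : F[X]}, Irreducible Q → Q.Monic → Irreducible R → R.Monic → Q ≠ R → IsCoprime Q R := by
    intro Q R h1 h2 h3 h4 h5
    refine (EuclideanDomain.dvd_or_coprime Q R h1).resolve_left fun h6 => h5 ?_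
    exact eq_of_monic_of_associated h2 h4 (h1.associated_of_dvd h3 h6)
  have hsq : Squarefree ((∏ i ∈ I, p i) * ∏ j ∈ J, z j) := by
    rw [squarefree_mul_iff]
    refine ⟨IsCoprime.isRelPrime (IsCoprime.prod_left fun i _ => IsCoprime.prod_right fun j _ =>
      hc (hp' i).2.1 (hp' i).1 (hz' j).2.1 (hz' j).1 (hpz i j)), ?_, ?_⟩
    · refine Finset.squarefree_prod_of_pairwise_isCoprime (fun i _ j _ hij => ?_) fun i _ => (hp' i).2.1.squarefree
      exact IsCoprime.isRelPrime (hc (hp' i).2.1 (hp' i).1 (hp' j).2.1 (hp' j).1 fun h => hij (hp h))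
    · refine Finset.squarefree_prod_of_pairwise_isCoprime (fun i _ j _ hij => ?_) fun i _ => (hz' i).2.1.squarefree
      exact IsCoprime.isRelPrime (hc (hz' i).2.1 (hz' i).1 (hz' j).2.1 (hz' j).1 fun h => hij (hz h))
  refine ⟨(∏ i ∈ I, p i) * ∏ j ∈ J, z j, ⟨?_, ?_, ?_, ?_, ?_⟩, hsq⟩
  · exact (monic_prod_of_monic _ _ fun i _ => (hp' i).1).mul (monic_prod_of_monic _ _ fun i _ => (hz' i).1)
  · rw [(monic_prod_of_monic _ _ fun i _ => (hp' i).1).natDegree_mul (monic_prod_of_monic _ _ fun i _ => (hz' i).1),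
      natDegree_prod_of_monic _ _ fun i _ => (hp' i).1, natDegree_prod_of_monic _ _ fun i _ => (hz' i).1,
      Finset.sum_congr rfl fun i _ => (hp' i).2.2, Finset.sum_congr rfl fun i _ => (hz' i).2.2,
      Finset.sum_const, Finset.sum_const, hJ, smul_eq_mul, smul_eq_mul, ← Nat.add_mul]
    congr 1; omega
  · intro i hi
    refine ⟨(Finset.dvd_prod_of_mem p hi).mul_right _, fun h => ?_⟩
    rw [sq] at h
    exact (hp' i).2.1.not_isUnit (hsq _ h)
  · intro i hi h2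
    rcases (hp' i).2.1.prime.dvd_or_dvd h2 with h3 | h3
    · obtain ⟨l, hl, h4⟩ := hA (hp' i).2.1 (fun i => (hp' i).2.1) h3
      rw [← hp (eq_of_monic_of_associated (hp' i).1 (hp' l).1 h4)] at hl
      exact hi hl
    · obtain ⟨l, hl, h4⟩ := hA (hp' i).2.1 (fun i => (hz' i).2.1) h3
      exact hpz i l (eq_of_monic_of_associated (hp' i).1 (hz' l).1 h4)
  · intro Q hQ h2
    rcases hQ.prime.dvd_or_dvd h2 with h3 | h3
    · exact Or.inl (hA hQ (fun i => (hp' i).2.1) h3)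
    · obtain ⟨l, _, h4⟩ := hA hQ (fun i => (hz' i).2.1) h3
      exact Or.inr ⟨l, h4⟩

theorem transv [Finite F] {f : F[X][X]} {D : F[X]} (hD : D ≠ 0)
    (h : ∀ v : HeightOneSpectrum F[X], D ∈ v.asIdeal → Harmless f v ∨ Special f v) :
    Ideal.span {C D, f, derivative f} = (⊤ : Ideal F[X][X]) := by
  by_contra hne
  obtain ⟨m, hm, hle⟩ := Ideal.exists_le_maximal _ hne
  have hmp : (m.comap (C : F[X] →+* F[X][X])).IsPrime := Ideal.IsPrime.comap _
  have hDm : D ∈ m.comap (C : F[X] →+* F[X][X]) := hle (Ideal.subset_span (Set.mem_insert _ _))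
  have hfm : f ∈ m := hle (Ideal.subset_span (Set.mem_insert_of_mem _ (Set.mem_insert _ _)))
  have hfm' : derivative f ∈ m :=
    hle (Ideal.subset_span (Set.mem_insert_of_mem _ (Set.mem_insert_of_mem _ rfl)))
  obtain ⟨A, B, hAB⟩ := Pool.Agent.H94.GG.sep_of
    (v := ⟨m.comap (C : F[X] →+* F[X][X]), hmp, fun h0 => hD (by
      rw [h0] at hDm
      exact hDm)⟩) (h ⟨m.comap (C : F[X] →+* F[X][X]), hmp, fun h0 => hD (by
      rw [h0] at hDm
      exact hDm)⟩ hDm)
  have h1 : A * f + B * derivative f - 1 ∈ m := by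
    have h2 : ∀ i, (A * f + B * derivative f - 1).coeff i ∈ m.comap (C : F[X] →+* F[X][X]) := by
      intro i
      rw [← Ideal.Quotient.eq_zero_iff_mem, ← coeff_map, Polynomial.map_sub, hAB, Polynomial.map_one, sub_self,
        coeff_zero]
    rw [← sum_C_mul_X_pow_eq (A * f + B * derivative f - 1)]
    refine Ideal.sum_mem _ fun i _ => Ideal.mul_mem_right _ _ (h2 i)
  have h3 : (1 : F[X][X]) ∈ m := by
    have h4 : A * f + B * derivative f ∈ m := Ideal.add_mem _ (Ideal.mul_mem_left _ _ hfm) (Ideal.mul_mem_left _ _ hfm')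
    have h5 := Ideal.sub_mem _ h4 h1
    have h6 : A * f + B * derivative f - (A * f + B * derivative f - 1) = 1 := by ring
    rwa [h6] at h5
  exact hm.ne_top ((Ideal.eq_top_iff_one m).2 h3)

/-- the places dividing the twisting polynomial -/
theorem pl_div {k d : ℕ} {f : F[X][X]} (p z : Fin k → F[X])
    (hp' : ∀ i, (p i).Monic ∧ Irreducible (p i) ∧ (p i).natDegree = d)
    (hz' : ∀ i, (z i).Monic ∧ Irreducible (z i) ∧ (z i).natDegree = d) {D : F[X]} {I : Finset (Fin k)}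
    (hD : ∀ Q : F[X], Irreducible Q → Q ∣ D → (∃ i ∈ I, Associated Q (p i)) ∨ ∃ j, Associated Q (z j))
    (hsp : ∀ i, Special f (LT.place (p i) (hp' i).2.1)) (hha : ∀ i, Harmless f (LT.place (z i) (hz' i).2.1))
    (v : HeightOneSpectrum F[X]) (hv : D ∈ v.asIdeal) : Harmless f v ∨ Special f v := by
  obtain ⟨Q, hQ⟩ : ∃ Q : F[X], v.asIdeal = Ideal.span {Q} :=
    (IsPrincipalIdealRing.principal v.asIdeal).principal
  have hQ0 : Q ≠ 0 := by
    rintro rfl
    apply v.ne_bot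
    rw [hQ, Ideal.span_singleton_eq_bot]
  have hQp : Irreducible Q := by
    have h7 := v.isPrime
    rw [hQ, Ideal.span_singleton_prime hQ0] at h7
    exact h7.irreducible
  rw [hQ, Ideal.mem_span_singleton] at hv
  rcases hD Q hQp hv with ⟨i, hi, h7⟩ | ⟨j, h7⟩
  · right
    have h8 : v = LT.place (p i) (hp' i).2.1 := by
      apply HeightOneSpectrum.ext
      rw [hQ, place_as, Ideal.span_singleton_eq_span_singleton]
      exact h7
    rw [h8]
    exact hsp i
  · left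
    have h8 : v = LT.place (z j) (hz' j).2.1 := by
      apply HeightOneSpectrum.ext
      rw [hQ, place_as, Ideal.span_singleton_eq_span_singleton]
      exact h7
    rw [h8]
    exact hha j

/-- the conclusion -/
structure GoodG (g h : ℕ) (f : F[X][X]) : Prop where
  fam : Fam (2 * g + 1) h f
  sep : (overK f).Separable
  sel : SelTriv 1 f
  twist : ∃ (e : ℕ) (D : F[X]) (f₀ : F[X][X]), 1 ≤ D.natDegree ∧ Squarefree D ∧ e + D.natDegree = h ∧
    Fam (2 * g + 1) e f₀ ∧ Smooth f₀ ∧ Ideal.span {C D, f₀, derivative f₀} = (⊤ : Ideal F[X][X]) ∧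
    Irreducible (lead (2 * g + 1) e f₀) ∧ f = scaleRoots f₀ D

end

/-- **THEOREM G1.** -/
theorem g1_str (F : Type) [Field F] [Finite F] (h2 : (2 : F) ≠ 0) {g : ℕ} (hg : 1 ≤ g) :
    ∃ c : ℝ, 0 < c ∧ ∃ h0 : ℕ, ∀ h : ℕ, h0 ≤ h →
      c * (Nat.card {f : F[X][X] // Fam (2 * g + 1) h f} : ℝ) ≤
        (Nat.card {f : F[X][X] // GoodG g h f} : ℝ) := by
  classical
  have hq3 := Pool.Agent.H40.GC.odd_card F h2
  have hq : (1 : ℝ) < Nat.card F := by exact_mod_cast (by omega : 1 < Nat.card F)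
  have hLat : ∀ (h : ℕ) (f : F[X][X]), 1 ≤ h → Fam (2 * g + 1) h f →
      Irreducible (lead (2 * g + 1) h f) → Smooth f → Pool.Agent.H40.GC.LatO g h f :=
    fun h f _ hf hl hs => Pool.Agent.H40.GC.lato hg h f hf hl hs
  -- the small places
  obtain ⟨M, hM⟩ : ∃ M : ℕ, 2 * ((2 * g + 1 : ℕ) : ℝ) / (Nat.card F : ℝ) ^ (M + 1) ≤ 1 / 8 := by
    obtain ⟨M, hM⟩ := pow_unbounded_of_one_lt (16 * ((2 * g + 1 : ℕ) : ℝ)) hq
    refine ⟨M, ?_⟩
    rw [div_le_iff₀ (by positivity)]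
    have h3 : (Nat.card F : ℝ) ^ M ≤ (Nat.card F : ℝ) ^ (M + 1) := pow_le_pow_right₀ hq.le (Nat.le_succ M)
    linarith
  obtain ⟨Z0, hZ0⟩ : ∃ Z0 : Finset (HeightOneSpectrum F[X]), ∀ v, v ∈ Z0 ↔
      ∃ Q : F[X], Q.natDegree ≤ M ∧ v.asIdeal = Ideal.span {Q} :=
    ⟨(small_fin M).toFinset, fun v => by rw [Set.Finite.mem_toFinset]; rfl⟩
  obtain ⟨C, hC0, hC⟩ := Pool.Agent.H40.GC.eng F h2 hg hLat Z0
  obtain ⟨k, hk, hk1⟩ : ∃ k : ℕ, 4 * C < 2 ^ k ∧ 1 ≤ k := by
    obtain ⟨k', hk'⟩ := pow_unbounded_of_one_lt (4 * C) (by norm_num : (1 : ℝ) < 2)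
    refine ⟨k' + 1, hk'.trans_le (pow_le_pow_right₀ (by norm_num) (Nat.le_succ k')), by omega⟩
  obtain ⟨d0, hd0⟩ := hC (2 * k)
  obtain ⟨d, hd, r, hr, hr'⟩ := pld F h2 (k + k) (max (M + 1) d0)
  obtain ⟨p, hp⟩ : ∃ p : Fin k → F[X], p = fun i => r (Fin.castAdd k i) := ⟨_, rfl⟩
  obtain ⟨z, hz⟩ : ∃ z : Fin k → F[X], z = fun i => r (Fin.natAdd k i) := ⟨_, rfl⟩
  have hpi : Function.Injective p := by
    intro i j hij
    rw [hp] at hij
    exact Fin.castAdd_injective k k (hr hij)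
  have hzi : Function.Injective z := by
    intro i j hij
    rw [hz] at hij
    exact Fin.natAdd_injective k k (hr hij)
  have hpz : ∀ i j, p i ≠ z j := by
    intro i j hij
    rw [hp, hz] at hij
    have h3 := congrArg Fin.val (hr hij)
    simp only [Fin.val_castAdd, Fin.val_natAdd] at h3
    have := i.2
    omega
  have hp' : ∀ i, (p i).Monic ∧ Irreducible (p i) ∧ (p i).natDegree = d := fun i => by
    rw [hp]
    exact hr' _
  have hz' : ∀ i, (z i).Monic ∧ Irreducible (z i) ∧ (z i).natDegree = d := fun i => by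
    rw [hz]
    exact hr' _
  choose D hD0 hDs using div_sq p z hpi hzi hpz hp' hz'
  have hD := hD0
  have hkd : 1 ≤ k * d := by
    have := le_max_left (M + 1) d0
    exact Nat.mul_pos hk1 (by omega)
  obtain ⟨P, hP⟩ : ∃ P : Finset (HeightOneSpectrum F[X]),
      P = Finset.univ.image fun i => LT.place (p i) (hp' i).2.1 := ⟨_, rfl⟩
  obtain ⟨Z, hZ⟩ : ∃ Z : Finset (HeightOneSpectrum F[X]),
      Z = Finset.univ.image fun i => LT.place (z i) (hz' i).2.1 := ⟨_, rfl⟩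
  have hPc : P.card = k := by
    rw [hP, Finset.card_image_of_injective, Finset.card_univ, Fintype.card_fin]
    intro i j hij
    exact hpi (place_inj (hp' i).2.1 (hp' j).2.1 (hp' i).1 (hp' j).1 hij)
  have hZc : Z.card ≤ k := by
    rw [hZ]
    exact Finset.card_image_le.trans (by rw [Finset.card_univ, Fintype.card_fin])
  have hPZ : Disjoint P Z := by
    rw [Finset.disjoint_left]
    intro v hv hv'
    rw [hP] at hv
    rw [hZ] at hv'
    obtain ⟨i, _, rfl⟩ := Finset.mem_image.1 hv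
    obtain ⟨j, _, hj⟩ := Finset.mem_image.1 hv'
    exact hpz i j (place_inj (hp' i).2.1 (hz' j).2.1 (hp' i).1 (hz' j).1 hj.symm)
  have hPZ0 : Disjoint P Z0 := by
    rw [Finset.disjoint_left]
    intro v hv hv'
    rw [hP] at hv
    obtain ⟨i, _, rfl⟩ := Finset.mem_image.1 hv
    obtain ⟨Q, hQ1, hQ2⟩ := (hZ0 _).1 hv'
    rw [place_as, Ideal.span_singleton_eq_span_singleton] at hQ2
    have h3 := natDegree_eq_of_degree_eq (degree_eq_degree_of_associated hQ2)
    rw [(hp' i).2.2] at h3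
    have := le_max_left (M + 1) d0
    omega
  have hcard : ∀ (Q : F[X]) (hQ : Irreducible Q), Q.natDegree = d → d0 ≤ Nat.card (kv (LT.place Q hQ)) := by
    intro Q hQ hQd
    refine le_trans ?_ (card_kv hQ)
    rw [hQd]
    have h3 : d < Nat.card F ^ d := Nat.lt_pow_self (by omega)
    have := le_max_right (M + 1) d0
    omega
  obtain ⟨h1, hh1⟩ := hd0 P Z hPZ hPZ0 (by omega) (by
    intro v hv
    rw [hP] at hv
    obtain ⟨i, _, rfl⟩ := Finset.mem_image.1 hv
    exact hcard _ _ (hp' i).2.2) (by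
    intro v hv
    rw [hZ] at hv
    obtain ⟨i, _, rfl⟩ := Finset.mem_image.1 hv
    exact hcard _ _ (hz' i).2.2)
  obtain ⟨h2', hh2⟩ := nsm h2 (m := 2 * g + 1) (by omega) M P (Z0 ∪ Z) (by
    intro Q hQ hQM
    refine ⟨LT.place Q hQ, Finset.mem_union_right _ (Finset.mem_union_left _ ((hZ0 _).2 ⟨Q, hQM, rfl⟩)), ?_⟩
    rw [place_as]
    exact Ideal.mem_span_singleton_self Q) (1 / 8) (by norm_num)
  have hPZZ : Disjoint P (Z0 ∪ Z) := Finset.disjoint_union_right.2 ⟨hPZ0, hPZ⟩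
  obtain ⟨h3', hh3⟩ := Pool.Agent.H40.GC.enc_low h2 hg hPZZ
  obtain ⟨c0, hc0⟩ : ∃ c0 : ℝ, c0 = (1 / (2 * (2 * g + 1 : ℝ))) ^ (P.card + (Z0 ∪ Z).card + 1) := ⟨_, rfl⟩
  have hc0' : 0 < c0 := by
    rw [hc0]
    positivity
  rw [← hc0] at hh3
  obtain ⟨E, hE⟩ : ∃ E : ℕ, E = ∑ i : Fin (2 * g + 1), (2 * g + 1 - (i : ℕ)) * (k * d) := ⟨_, rfl⟩
  refine ⟨c0 / 2 / 2 ^ k / (Nat.card F : ℝ) ^ E, by positivity, max h1 (max h2' h3') + k * d, fun h' hh' => ?_⟩
  obtain ⟨h, rfl⟩ : ∃ h, h' = h + k * d := ⟨h' - k * d, by omega⟩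
  have hge1 : h1 ≤ h := by have := le_max_left h1 (max h2' h3'); omega
  have hge2 : h2' ≤ h := by
    have := le_max_right h1 (max h2' h3')
    have := le_max_left h2' h3'
    omega
  have hge3 : h3' ≤ h := by
    have := le_max_right h1 (max h2' h3')
    have := le_max_right h2' h3'
    omega
  have e1 := hh1 h hge1
  have e2 := hh2 h hge2
  have e3 := hh3 h hge3
  -- sets
  obtain ⟨A, hA⟩ : ∃ A : Set F[X][X], A = {f | FamS (2 * g + 1) h P (Z0 ∪ Z) f} := ⟨_, rfl⟩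
  obtain ⟨B1, hB1⟩ : ∃ B1 : Set F[X][X], B1 = {f | FamS (2 * g + 1) h P (Z0 ∪ Z) f ∧ Smooth f ∧
      ∃ δ : AdjoinRoot (overK f), IsS0 f δ ∧ ¬ IsSquare δ ∧ ∀ v ∈ P, SqAt f v δ} := ⟨_, rfl⟩
  obtain ⟨B2, hB2⟩ : ∃ B2 : Set F[X][X], B2 = {f | FamS (2 * g + 1) h P (Z0 ∪ Z) f ∧ ¬ Smooth f} := ⟨_, rfl⟩
  obtain ⟨T, hT⟩ : ∃ T : Set F[X][X], T = {f | GoodG g (h + k * d) f} := ⟨_, rfl⟩
  have n1 : (Nat.card {f : F[X][X] // FamS (2 * g + 1) h P (Z0 ∪ Z) f} : ℝ) = A.ncard := by rw [hA]; rfl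
  have n2 : (Nat.card {f : F[X][X] // FamS (2 * g + 1) h P (Z0 ∪ Z) f ∧ Smooth f ∧
      ∃ δ : AdjoinRoot (overK f), IsS0 f δ ∧ ¬ IsSquare δ ∧ ∀ v ∈ P, SqAt f v δ} : ℝ) = B1.ncard := by
    rw [hB1]; rfl
  have n3 : (Nat.card {f : F[X][X] // FamS (2 * g + 1) h P (Z0 ∪ Z) f ∧ ¬ Smooth f} : ℝ) = B2.ncard := by
    rw [hB2]; rfl
  have n4 : (Nat.card {f : F[X][X] // GoodG g (h + k * d) f} : ℝ) = T.ncard := by
    rw [hT]; rfl
  rw [n1, n2, hPc] at e1
  rw [n1, n3] at e2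
  rw [n1] at e3
  rw [n4]
  have hfinT : T.Finite := by
    rw [hT]
    exact (H13.SM.fam_fin (2 * g + 1) (h + k * d)).subset fun f hf => hf.fam
  have hfinA : A.Finite := by
    rw [hA]
    exact Pool.Agent.H40.GC.fams_fin _ _ _ _
  -- the covering
  have hcov : A ⊆ B1 ∪ B2 ∪ ⋃ I ∈ (Finset.univ : Finset (Finset (Fin k))),
      {f | Fam (2 * g + 1) h f ∧ (overK f).Separable ∧ Smooth f ∧
        Ideal.span {Polynomial.C (D I), f, derivative f} = (⊤ : Ideal F[X][X]) ∧ Irreducible (lead (2 * g + 1) h f) ∧ SelTriv (D I) f} := by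
    intro f hf
    rw [hA] at hf
    obtain ⟨hf1, hf2, hf3, hf4⟩ := hf
    by_cases hs : Smooth f
    · by_cases hst : ∃ δ : AdjoinRoot (overK f), IsS0 f δ ∧ ¬ IsSquare δ ∧ ∀ v ∈ P, SqAt f v δ
      · left; left
        rw [hB1]
        exact ⟨⟨hf1, hf2, hf3, hf4⟩, hs, hst⟩
      · right
        obtain ⟨I, hI⟩ := good_twist h2 hg p z hpi hzi hpz hp' hz' D hD f hf1 hf2 hs (by
          intro i
          apply hf3
          rw [hP]
          exact Finset.mem_image_of_mem _ (Finset.mem_univ i)) (by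
          intro i
          apply hf4
          refine Finset.mem_union_right _ ?_
          rw [hZ]
          exact Finset.mem_image_of_mem _ (Finset.mem_univ i)) (by
          intro δ hδ h5
          by_contra h6
          refine hst ⟨δ, hδ, h6, fun v hv => ?_⟩
          rw [hP] at hv
          obtain ⟨i, _, rfl⟩ := Finset.mem_image.1 hv
          exact h5 i)
        have hi0 : LT.place (p ⟨0, hk1⟩) (hp' ⟨0, hk1⟩).2.1 ∈ P := by
          rw [hP]
          exact Finset.mem_image_of_mem _ (Finset.mem_univ _)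
        have hsep : (overK f).Separable :=
          Pool.Agent.H74.GR.sep_over hf1.monic _
            (PerfectField.separable_iff_squarefree.2 (sqf_spec (hf3 _ hi0)))
        simp only [Set.mem_iUnion]
        refine ⟨I, Finset.mem_univ I, hf1, hsep, hs, transv (hD I).1.ne_zero
          (pl_div p z hp' hz' (hD I).2.2.2.2 ?_ ?_), hf2, hI⟩
        · intro i
          apply hf3
          rw [hP]
          exact Finset.mem_image_of_mem _ (Finset.mem_univ i)
        · intro i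
          apply hf4
          refine Finset.mem_union_right _ ?_
          rw [hZ]
          exact Finset.mem_image_of_mem _ (Finset.mem_univ i)
    · left; right
      rw [hB2]
      exact ⟨⟨hf1, hf2, hf3, hf4⟩, hs⟩
  have hTI : ∀ I : Finset (Fin k), {f | Fam (2 * g + 1) h f ∧ (overK f).Separable ∧ Smooth f ∧
        Ideal.span {Polynomial.C (D I), f, derivative f} = (⊤ : Ideal F[X][X]) ∧ Irreducible (lead (2 * g + 1) h f) ∧ SelTriv (D I) f}.ncard ≤ T.ncard := by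
    intro I
    refine Set.ncard_le_ncard_of_injOn (fun f => scaleRoots f (D I)) ?_ ?_ hfinT
    · rintro f ⟨hf1, hfs, hfo, htr, hfl, hf2⟩
      rw [hT]
      refine ⟨tw_fam hf1 (hD I).2.1, Pool.Agent.H74.GR.sep_scale hf1.monic (hD I).1.ne_zero hfs,
        tw_sel (hD I).1.ne_zero hf1.monic ?_ hf2, h, D I, f, ?_, hDs I, ?_, hf1, hfo, htr, hfl, rfl⟩
      · rw [hf1.deg]
        exact ⟨g, rfl⟩
      · rw [(hD I).2.1]
        exact hkd
      · rw [(hD I).2.1]
    · rintro f ⟨hf1, _⟩ f' ⟨hf1', _⟩ hff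
      exact tw_inj hf1.deg hf1'.deg (hD I).1.ne_zero hff
  have hfinB1 : B1.Finite := hfinA.subset (by rw [hA, hB1]; exact fun f hf => hf.1)
  have hfinB2 : B2.Finite := hfinA.subset (by rw [hA, hB2]; exact fun f hf => hf.1)
  have hfinU : (⋃ I ∈ (Finset.univ : Finset (Finset (Fin k))),
      {f | Fam (2 * g + 1) h f ∧ (overK f).Separable ∧ Smooth f ∧
        Ideal.span {Polynomial.C (D I), f, derivative f} = (⊤ : Ideal F[X][X]) ∧ Irreducible (lead (2 * g + 1) h f) ∧ SelTriv (D I) f}).Finite :=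
    (H13.SM.fam_fin (2 * g + 1) h).subset (by
      intro f hf
      simp only [Set.mem_iUnion] at hf
      obtain ⟨I, _, hf1, _⟩ := hf
      exact hf1)
  have hU : (⋃ I ∈ (Finset.univ : Finset (Finset (Fin k))),
      {f | Fam (2 * g + 1) h f ∧ (overK f).Separable ∧ Smooth f ∧
        Ideal.span {Polynomial.C (D I), f, derivative f} = (⊤ : Ideal F[X][X]) ∧ Irreducible (lead (2 * g + 1) h f) ∧ SelTriv (D I) f}).ncard ≤ 2 ^ k * T.ncard := by
    have h5 : (⋃ I ∈ (Finset.univ : Finset (Finset (Fin k))),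
        {f | Fam (2 * g + 1) h f ∧ (overK f).Separable ∧ Smooth f ∧
        Ideal.span {Polynomial.C (D I), f, derivative f} = (⊤ : Ideal F[X][X]) ∧ Irreducible (lead (2 * g + 1) h f) ∧ SelTriv (D I) f}).ncard ≤
        ∑ I ∈ (Finset.univ : Finset (Finset (Fin k))), {f | Fam (2 * g + 1) h f ∧ (overK f).Separable ∧ Smooth f ∧
        Ideal.span {Polynomial.C (D I), f, derivative f} = (⊤ : Ideal F[X][X]) ∧ Irreducible (lead (2 * g + 1) h f) ∧ SelTriv (D I) f}.ncard := by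
      have h6 := Finset.set_ncard_biUnion_le (Finset.univ : Finset (Finset (Fin k)))
        (fun I => {f : F[X][X] | Fam (2 * g + 1) h f ∧ (overK f).Separable ∧ Smooth f ∧
        Ideal.span {Polynomial.C (D I), f, derivative f} = (⊤ : Ideal F[X][X]) ∧ Irreducible (lead (2 * g + 1) h f) ∧ SelTriv (D I) f})
      exact h6
    refine h5.trans ((Finset.sum_le_sum fun I _ => hTI I).trans ?_)
    rw [Finset.sum_const, Finset.card_univ, Fintype.card_finset, Fintype.card_fin, smul_eq_mul]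
  have hAle : A.ncard ≤ B1.ncard + B2.ncard + 2 ^ k * T.ncard := by
    refine (Set.ncard_le_ncard hcov ((hfinB1.union hfinB2).union hfinU)).trans ?_
    refine (Set.ncard_union_le _ _).trans ?_
    exact Nat.add_le_add (Set.ncard_union_le _ _) hU
  have hAle' : (A.ncard : ℝ) ≤ B1.ncard + B2.ncard + 2 ^ k * T.ncard := by exact_mod_cast hAle
  -- numbers
  have hA0 : (0 : ℝ) ≤ A.ncard := Nat.cast_nonneg _
  have h2k : (0 : ℝ) < 2 ^ k := by positivity
  have b1 : (B1.ncard : ℝ) ≤ A.ncard / 4 := by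
    have h5 : C * (A.ncard : ℝ) ≤ 2 ^ k / 4 * A.ncard := mul_le_mul_of_nonneg_right (by linarith) hA0
    have h6 : (2 : ℝ) ^ k * B1.ncard ≤ 2 ^ k * (A.ncard / 4) := by linarith
    exact le_of_mul_le_mul_left h6 h2k
  have b2 : (B2.ncard : ℝ) ≤ A.ncard / 4 := by
    refine e2.trans ?_
    have h5 : (2 * ((2 * g + 1 : ℕ) : ℝ) / (Nat.card F : ℝ) ^ (M + 1) + 1 / 8) * (A.ncard : ℝ) ≤
        (1 / 8 + 1 / 8) * A.ncard := mul_le_mul_of_nonneg_right (by linarith) hA0
    linarith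
  have b3 : (A.ncard : ℝ) / 2 ≤ 2 ^ k * T.ncard := by linarith
  have hFam : (Nat.card {f : F[X][X] // Fam (2 * g + 1) (h + k * d) f} : ℝ) =
      (Nat.card {f : F[X][X] // Fam (2 * g + 1) h f} : ℝ) * (Nat.card F : ℝ) ^ E := by
    rw [Pool.Agent.H40.GC.fmc_all, Pool.Agent.H40.GC.fmc_all, mh_add, pow_add, ← hE]
    push_cast
    ring
  rw [hFam]
  have hqE : (0 : ℝ) < (Nat.card F : ℝ) ^ E := by positivity
  have h7 : c0 / 2 / 2 ^ k / (Nat.card F : ℝ) ^ E *
      ((Nat.card {f : F[X][X] // Fam (2 * g + 1) h f} : ℝ) * (Nat.card F : ℝ) ^ E) =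
      (c0 * (Nat.card {f : F[X][X] // Fam (2 * g + 1) h f} : ℝ)) / 2 / 2 ^ k := by
    field_simp
  rw [h7, div_le_iff₀ h2k]
  linarith

end Pool.Agent.H40.GF
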