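import Pool.Agent.H94.GG.Defs

/-!
# [H40 GF TWV] THEOREM G1 (MP_1bad5e_ag): `D y ^ 2 = g(x)` and `y ^ 2 = D ^ m g(x / D)` over a field

`scaleRoots g D = D ^ m g(x / D)`, `m = natDegree g` (coefficients `g_i D ^ (m - i)`).

PROOF.
`tw_iso`: the `k`-algebra map `AdjoinRoot g' → AdjoinRoot g`, `root ↦ D * root` (`AdjoinRoot.liftAlgHom`,
`Polynomial.scaleRoots_eval₂_eq_zero`), has the inverse `root ↦ D⁻¹ * root`, as `g = scaleRoots g' D⁻¹`
(`scaleRoots_mul`, `scaleRoots_one`); both compositions fix `root` (`AdjoinRoot.algHom_ext`); `AlgEquiv.ofAlgHom`.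
`tw_val`: let `s p = p.comp (C D * X)`, a ring homomorphism `k[X] → k[X]`, `s g' = D ^ m g`
(compare coefficients: `coeff (p.comp (C D * X)) i = p_i D ^ i`: `comp_C_mul_X_coeff`), and
`e (mk g' p) = mk g (s p)` for all `p` (both sides are algebra maps in `p` with the same value at `X`).
Let `(P, Q)` be a Mumford pair of `1 * y ^ 2 = g'`, `n = natDegree P`, `m + 1 = 2 r` (`m` odd).  Let
`P' = C (D⁻¹ ^ n) * s P` (monic of degree `n`), `Q' = C (D⁻¹ ^ r) * s Q`.  `P ∣ Q ^ 2 - g'` gives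
`s P ∣ (s Q) ^ 2 - D ^ m g = D ^ (2 r - 1) (D Q' ^ 2 - g)`, so `P' ∣ C D * Q' ^ 2 - g` (the constants are units);
`IsCoprime P g'` gives `IsCoprime (s P) (s g')` (`IsCoprime.map`), so `IsCoprime P' g`.  And
`e (desc 1 g' P) = (-1) ^ n mk (s P) = (-D) ^ n mk P' = desc D g P'`.  With `γ ↦ e γ` the equation
`δ γ ^ 2 = ∏ desc` is mapped to the required one.
-/

set_option autoImplicit false

namespace Pool.Agent.H40.GF

open Polynomial
open Pool.Agent.H94.GG (IsMum desc IsVal)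

theorem tw_iso {k : Type} [Field k] {D : k} (hD : D ≠ 0) {g g' : k[X]} (hg' : g' = scaleRoots g D) :
    ∃ e : AdjoinRoot g' ≃ₐ[k] AdjoinRoot g,
      e (AdjoinRoot.root g') = algebraMap k (AdjoinRoot g) D * AdjoinRoot.root g := by
  have h1 : aeval (AdjoinRoot.root g) g = 0 := by
    rw [AdjoinRoot.aeval_eq, AdjoinRoot.mk_self]
  have h2 : aeval (algebraMap k (AdjoinRoot g) D * AdjoinRoot.root g) g' = 0 := by
    rw [hg']
    exact scaleRoots_aeval_eq_zero h1
  have h3 : aeval (AdjoinRoot.root g') g' = 0 := by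
    rw [AdjoinRoot.aeval_eq, AdjoinRoot.mk_self]
  have h4 : g = scaleRoots g' D⁻¹ := by
    ext i
    rw [coeff_scaleRoots, hg', coeff_scaleRoots, natDegree_scaleRoots, mul_assoc, ← mul_pow,
      mul_inv_cancel₀ hD, one_pow, mul_one]
  have h5 : aeval (algebraMap k (AdjoinRoot g') D⁻¹ * AdjoinRoot.root g') g = 0 := by
    have h6 : aeval (algebraMap k (AdjoinRoot g') D⁻¹ * AdjoinRoot.root g') (scaleRoots g' D⁻¹) = 0 :=
      scaleRoots_aeval_eq_zero h3
    rwa [← h4] at h6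
  let φ : AdjoinRoot g' →ₐ[k] AdjoinRoot g := AdjoinRoot.liftAlgHom g' (Algebra.ofId k _)
    (algebraMap k (AdjoinRoot g) D * AdjoinRoot.root g) h2
  let ψ : AdjoinRoot g →ₐ[k] AdjoinRoot g' := AdjoinRoot.liftAlgHom g (Algebra.ofId k _)
    (algebraMap k (AdjoinRoot g') D⁻¹ * AdjoinRoot.root g') h5
  have hφ : φ (AdjoinRoot.root g') = algebraMap k (AdjoinRoot g) D * AdjoinRoot.root g :=
    AdjoinRoot.liftAlgHom_root _ _ _ _
  have hψ : ψ (AdjoinRoot.root g) = algebraMap k (AdjoinRoot g') D⁻¹ * AdjoinRoot.root g' :=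
    AdjoinRoot.liftAlgHom_root _ _ _ _
  refine ⟨AlgEquiv.ofAlgHom φ ψ (AdjoinRoot.algHom_ext ?_) (AdjoinRoot.algHom_ext ?_), hφ⟩
  · rw [AlgHom.comp_apply, hψ, map_mul, AlgHom.commutes, hφ, ← mul_assoc, ← map_mul,
      inv_mul_cancel₀ hD, map_one, one_mul]
    rfl
  · rw [AlgHom.comp_apply, hφ, map_mul, AlgHom.commutes, hψ, ← mul_assoc, ← map_mul,
      mul_inv_cancel₀ hD, map_one, one_mul]
    rfl

theorem tw_val {k : Type} [Field k] {D : k} (hD : D ≠ 0) {g g' : k[X]} (hg : g.Monic)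
    (hodd : Odd g.natDegree) (hg' : g' = scaleRoots g D) (e : AdjoinRoot g' ≃ₐ[k] AdjoinRoot g)
    (he : e (AdjoinRoot.root g') = algebraMap k (AdjoinRoot g) D * AdjoinRoot.root g)
    {δ : AdjoinRoot g'} (hδ : IsVal 1 g' δ) : IsVal D g (e δ) := by
  obtain ⟨r0, hr0⟩ := hodd
  -- the substitution
  have hs : ∀ p : k[X], e (AdjoinRoot.mk g' p) = AdjoinRoot.mk g (p.comp (C D * X)) := by
    intro p
    have h1 : (AdjoinRoot.mk g' p) = aeval (AdjoinRoot.root g') p := (AdjoinRoot.aeval_eq p).symm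
    have h2 : AdjoinRoot.mk g (p.comp (C D * X)) = aeval (AdjoinRoot.root g) (p.comp (C D * X)) :=
      (AdjoinRoot.aeval_eq _).symm
    rw [h1, h2, aeval_comp, map_mul, aeval_C, aeval_X, ← he]
    exact (aeval_algHom_apply (e : AdjoinRoot g' →ₐ[k] AdjoinRoot g) _ p).symm
  have hsg : g'.comp (C D * X) = C (D ^ g.natDegree) * g := by
    ext i
    rw [comp_C_mul_X_coeff, coeff_C_mul, hg', coeff_scaleRoots]
    by_cases hi : i ≤ g.natDegree
    · rw [mul_assoc, ← pow_add, Nat.sub_add_cancel hi, mul_comm]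
    · rw [coeff_eq_zero_of_natDegree_lt (not_le.1 hi), zero_mul, zero_mul, mul_zero]
  obtain ⟨r, P, Q, γ, hM, hγ⟩ := hδ
  refine ⟨r, fun i => C ((D⁻¹) ^ (P i).natDegree) * (P i).comp (C D * X),
    fun i => C ((D⁻¹) ^ (r0 + 1)) * (Q i).comp (C D * X), e γ, fun i => ?_, ?_⟩
  · obtain ⟨h1, h2, h3⟩ := hM i
    have hu : IsUnit (C ((D⁻¹) ^ (P i).natDegree)) :=
      isUnit_C.2 (isUnit_iff_ne_zero.2 (pow_ne_zero _ (inv_ne_zero hD)))
    have hdeg : ((P i).comp (C D * X)).natDegree = (P i).natDegree := by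
      rw [natDegree_comp, natDegree_C_mul_X _ hD, mul_one]
    refine ⟨?_, ?_, ?_⟩
    · rw [Monic, leadingCoeff, natDegree_C_mul (pow_ne_zero _ (inv_ne_zero hD)), hdeg, coeff_C_mul,
        comp_C_mul_X_coeff, h1.coeff_natDegree, one_mul, ← mul_pow, inv_mul_cancel₀ hD, one_pow]
    · have h4 : IsCoprime ((P i).comp (C D * X)) (g'.comp (C D * X)) :=
        h2.map (compRingHom (C D * X))
      rw [hsg] at h4
      rw [isCoprime_mul_unit_left_left hu]
      exact h4.of_mul_right_right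
    · rw [hu.mul_left_dvd]
      obtain ⟨R, hR⟩ := h3
      have h5 := congrArg (fun p : k[X] => p.comp (C D * X)) hR
      simp only [sub_comp, mul_comp, pow_comp, hsg, C_comp] at h5
      have h6 : (C D : k[X]) * (C ((D⁻¹) ^ (r0 + 1)) * (Q i).comp (C D * X)) ^ 2 - g =
          C ((D⁻¹) ^ g.natDegree) * ((C (1 : k) * (Q i).comp (C D * X) ^ 2 - C (D ^ g.natDegree) * g)) := by
        have h7 : (C D : k[X]) * (C ((D⁻¹) ^ (r0 + 1))) ^ 2 = C ((D⁻¹) ^ g.natDegree) := by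
          rw [← C_pow, ← C_mul, hr0]
          congr 1
          rw [← pow_mul]
          have h8 : (r0 + 1) * 2 = 2 * r0 + 1 + 1 := by ring
          rw [h8, pow_succ (D⁻¹) (2 * r0 + 1), mul_comm, mul_assoc, inv_mul_cancel₀ hD, mul_one]
        have h9 : (C ((D⁻¹) ^ g.natDegree) : k[X]) * C (D ^ g.natDegree) = 1 := by
          rw [← C_mul, ← mul_pow, inv_mul_cancel₀ hD, one_pow, C_1]
        rw [mul_pow, ← mul_assoc, h7, C_1, one_mul, mul_sub, ← mul_assoc _ _ g, h9, one_mul]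
      rw [h6, h5]
      exact ⟨C ((D⁻¹) ^ g.natDegree) * R.comp (C D * X), by ring⟩
  · have h1 := congrArg e hγ
    rw [map_mul, map_pow, map_prod] at h1
    rw [h1]
    refine Finset.prod_congr rfl fun i _ => ?_
    have hdeg : (C ((D⁻¹) ^ (P i).natDegree) * (P i).comp (C D * X)).natDegree =
        (P i).natDegree := by
      rw [natDegree_C_mul (pow_ne_zero _ (inv_ne_zero hD)), natDegree_comp, natDegree_C_mul_X _ hD,
        mul_one]
    simp only [desc, hdeg]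
    rw [map_mul, map_pow, hs, hs, C_comp, map_mul, ← mul_assoc]
    congr 1
    have h8 : (C (-D) : k[X]) ^ (P i).natDegree * C ((D⁻¹) ^ (P i).natDegree) =
        C (-1) ^ (P i).natDegree := by
      rw [← C_pow, ← C_pow, ← C_mul, ← mul_pow, neg_mul, mul_inv_cancel₀ hD]
    rw [← map_pow (AdjoinRoot.mk g) (C (-1)), ← map_pow (AdjoinRoot.mk g) (C (-D)), ← map_mul, h8]

end Pool.Agent.H40.GF
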